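import Pool.Agent.Helper83.BD.DilJ
import Pool.Agent.Helper8.BC.Dual

/-!
# BD-11: the theorem for all `u < 1`

PROOF. `u < 1/2`: `Helper8.BC.below_critical`, `c₀ = 1/√(1 + log (1/(2 u))) ∈ (0, 1)` as `log (1/(2 u)) > 0`. `u ≥ 1/2`: `dilJ`, and the duality of `below_critical` (BC-19, `Pool/Agent/Helper8/BC/Dual.lean`):
`‖Z‖ = c Z` with `‖c‖ ≤ 1` (`c = conj Z/‖Z‖`, or `0`), for `Z = Z(d, h) = ∑_(n ≤ X, d ∣ n + h) (∏ Λ) g_d(n) f(n + h)`; so the left side is (the real part of)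
`∑_n GG n ∑_d g_d(n) ∑_(h ∈ mul n d y H) c(d, h) b (Ω (n + h)) ≤ ∑_n GG n ∑_d TC b c y H n d d` (`mul n d y H` = the `h ∈ Ioc y (y + H)` with `d ∣ n + h`); then `dilJ`. `GG a n = ∏ Λ (n + a i)`.
-/

set_option autoImplicit false

namespace Pool.Agent.Helper83.BD

open Finset
open Pool.Agent.Helper8.DW (Per)

private theorem dual_unit' (z : ℂ) : ∃ c : ℂ, ‖c‖ ≤ 1 ∧ c * z = (‖z‖ : ℂ) := by
  by_cases hz : z = 0
  · exact ⟨0, by simp, by simp [hz]⟩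
  · have hn : (‖z‖ : ℂ) ≠ 0 := by
      exact_mod_cast (norm_ne_zero_iff.mpr hz)
    refine ⟨(starRingEnd ℂ) z / (‖z‖ : ℂ), ?_, ?_⟩
    · rw [norm_div, RCLike.norm_conj, Complex.norm_real, norm_norm, div_self (norm_ne_zero_iff.mpr hz)]
    · rw [div_mul_eq_mul_div, div_eq_iff hn, ← Complex.normSq_eq_conj_mul_self, Complex.normSq_eq_norm_sq]
      push_cast
      ring

private theorem dual_all {k : ℕ} (a : Fin k → ℕ) (b : ℕ → ℝ) (X D H y : ℕ) (g : ℕ → ℕ → ℂ)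
    (hg : ∀ d n, ‖g d n‖ ≤ 1) : ∃ c : ℕ → ℕ → ℂ, (∀ d h, ‖c d h‖ ≤ 1) ∧
      ∑ d ∈ Ico D (2 * D), ∑ h ∈ Ioc y (y + H), ‖∑ n ∈ (Icc 1 X).filter (fun n => d ∣ n + h),
        (∏ i, (ArithmeticFunction.vonMangoldt (n + a i) : ℂ)) * g d n *
          ((b (ArithmeticFunction.cardFactors (n + h)) : ℝ) : ℂ)‖ ≤
        ∑ n ∈ Icc 1 X, Pool.Agent.Helper83.HLC.GG a n * ∑ d ∈ Ico D (2 * D), Pool.Agent.Helper8.BC.TC b c y H n d d := by
  set Z : ℕ → ℕ → ℂ := fun d h => ∑ n ∈ (Icc 1 X).filter (fun n => d ∣ n + h),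
          (∏ i, (ArithmeticFunction.vonMangoldt (n + a i) : ℂ)) * g d n *
            ((b (ArithmeticFunction.cardFactors (n + h)) : ℝ) : ℂ) with hZ
  choose c hc1 hc2 using fun d h => dual_unit' (Z d h)
  have hGG : ∀ n, Pool.Agent.Helper83.HLC.GG a n = ∏ i, ArithmeticFunction.vonMangoldt (n + a i) := fun n => rfl
  have hGG0 : ∀ n, 0 ≤ Pool.Agent.Helper83.HLC.GG a n := fun n => by
    rw [hGG]; exact Finset.prod_nonneg fun i _ => ArithmeticFunction.vonMangoldt_nonneg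
  have hkey : ((∑ d ∈ Ico D (2 * D), ∑ h ∈ Ioc y (y + H), ‖Z d h‖ : ℝ) : ℂ) =
      ∑ n ∈ Icc 1 X, ∑ d ∈ Ico D (2 * D), (Pool.Agent.Helper83.HLC.GG a n : ℂ) * (g d n *
        ∑ h ∈ Pool.Agent.Helper8.DW.mul n d y H, c d h * ((b (ArithmeticFunction.cardFactors (n + h)) : ℝ) : ℂ)) := by
    push_cast
    rw [Finset.sum_comm (s := Icc 1 X)]
    refine Finset.sum_congr rfl fun d _ => ?_
    have h1 : ∀ h ∈ Ioc y (y + H), ((‖Z d h‖ : ℝ) : ℂ) = ∑ n ∈ Icc 1 X, if d ∣ n + h then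
        (Pool.Agent.Helper83.HLC.GG a n : ℂ) * (g d n * (c d h * ((b (ArithmeticFunction.cardFactors (n + h)) : ℝ) : ℂ))) else 0 := by
      intro h _
      rw [← hc2 d h, hZ]
      simp only
      rw [Finset.mul_sum, ← Finset.sum_filter]
      refine Finset.sum_congr rfl fun n _ => ?_
      rw [hGG]
      push_cast
      ring
    rw [Finset.sum_congr rfl h1, Finset.sum_comm]
    refine Finset.sum_congr rfl fun n _ => ?_
    rw [Pool.Agent.Helper8.DW.mul, ← Finset.sum_filter, Finset.mul_sum, Finset.mul_sum]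
  refine ⟨c, hc1, ?_⟩
  have h0 : 0 ≤ ∑ d ∈ Ico D (2 * D), ∑ h ∈ Ioc y (y + H), ‖Z d h‖ :=
    Finset.sum_nonneg fun d _ => Finset.sum_nonneg fun h _ => norm_nonneg _
  have h1 : ∑ d ∈ Ico D (2 * D), ∑ h ∈ Ioc y (y + H), ‖Z d h‖ =
      ‖((∑ d ∈ Ico D (2 * D), ∑ h ∈ Ioc y (y + H), ‖Z d h‖ : ℝ) : ℂ)‖ := by
    rw [Complex.norm_real, Real.norm_of_nonneg h0]
  rw [h1, hkey]
  refine (norm_sum_le _ _).trans (Finset.sum_le_sum fun n _ => ?_)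
  refine (norm_sum_le _ _).trans ?_
  rw [Finset.mul_sum]
  refine Finset.sum_le_sum fun d _ => ?_
  rw [norm_mul, norm_mul, Complex.norm_real, Real.norm_of_nonneg (hGG0 n)]
  refine mul_le_mul_of_nonneg_left ?_ (hGG0 n)
  have h2 : ‖g d n‖ * Pool.Agent.Helper8.BC.TC b c y H n d d ≤ 1 * Pool.Agent.Helper8.BC.TC b c y H n d d :=
    mul_le_mul_of_nonneg_right (hg d n) (norm_nonneg _)
  rw [one_mul] at h2
  exact h2

theorem below_all (u : ℝ) (hu : 0 < u) (hu1 : u < 1) : ∃ c₀ : ℝ, 0 < c₀ ∧ c₀ < 1 ∧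
    (u < 1 / 2 → c₀ = 1 / √(1 + Real.log (1 / (2 * u)))) ∧
    ∀ {k : ℕ} (a : Fin k → ℕ), Function.Injective a → ∀ {q : ℕ} {b : ℕ → ℝ}, Per q b → ∀ ε : ℝ, 0 < ε →
      ∃ H1 X0 : ℕ, ∀ X D H y : ℕ, X0 ≤ X → 1 ≤ D → H1 * D ≤ H → D * H ≤ X → y ≤ X →
        Real.log X ^ k ≤ D * H * ((H : ℝ) / D) ^ u → ∀ g : ℕ → ℕ → ℂ, (∀ d n, ‖g d n‖ ≤ 1) →
          ∑ d ∈ Ico D (2 * D), ∑ h ∈ Ioc y (y + H), ‖∑ n ∈ (Icc 1 X).filter (fun n => d ∣ n + h),
            (∏ i, (ArithmeticFunction.vonMangoldt (n + a i) : ℂ)) * g d n *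
              ((b (ArithmeticFunction.cardFactors (n + h)) : ℝ) : ℂ)‖ ≤
            c₀ * H * ∑ n ∈ Icc 1 X, ∏ i, ArithmeticFunction.vonMangoldt (n + a i) + ε * H * X := by
  by_cases hu2 : u < 1 / 2
  · have hlog : 0 < Real.log (1 / (2 * u)) := by
      apply Real.log_pos
      rw [lt_div_iff₀ (by positivity)]
      linarith
    have hs : 1 < √(1 + Real.log (1 / (2 * u))) := by
      rw [Real.lt_sqrt (by norm_num)]
      linarith
    refine ⟨1 / √(1 + Real.log (1 / (2 * u))), by positivity, ?_, fun _ => rfl, ?_⟩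
    · rw [div_lt_one (by linarith)]
      exact hs
    · intro k a ha q b hb ε hε
      exact Pool.Agent.Helper8.BC.below_critical a ha hb u hu hu2 ε hε
  · obtain ⟨c₀, hc0, hc1, hmain⟩ := dilJ u hu hu1
    refine ⟨c₀, hc0, hc1, fun h => absurd h hu2, ?_⟩
    intro k a ha q b hb ε hε
    obtain ⟨H1, X0, hm⟩ := hmain a ha hb ε hε
    refine ⟨H1, X0, fun X D H y hX hD hH hDH hy hlog g hg => ?_⟩
    obtain ⟨c, hc, hle⟩ := dual_all a b X D H y g hg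
    exact hle.trans (hm X hX D H y hD hH hDH hy hlog c hc)

end Pool.Agent.Helper83.BD
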