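import Pool.Agent.Helper83.BD.Defs
import Pool.Agent.Helper10.ArithSums

/-!
# BD-07: the sum of the reciprocals of the rough numbers

PROOF. `s = ∑ 1/p` over the primes `R^δ ≤ p ≤ R`: `log p ≥ δ log R`, so `s ≤ (1/(δ log R)) ∑_(p ≤ R) log p / p ≤ (log R + log 4)/(δ log R) ≤ 3/δ` (`Pool.Agent.Helper10.mertens_upper`, `R ≥ 2`).
Induction on `J`: the constants `C_0 = 1`, `C_(J+1) = 1 + (3/δ) C_J`. `J = 0`: `Ω e = 0`, `e > 0` gives `e = 1`. `J + 1`: for `e ≠ 1` in `E` let `p = e.minFac`, `e₁ = e / p`: `e = p e₁`, `R^δ ≤ p ≤ e ≤ R`,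
`e₁ > 0`, `Ω e₁ = Ω e - 1 ≤ J`, prime factors of `e₁` are prime factors of `e`, `e₁ ≤ e ≤ R`. So `∑_(e ∈ E, e ≠ 1) 1/e ≤ ∑_p (1/p) ∑_(e₁ ∈ image) 1/e₁ ≤ s C_J` (`e ↦ (p, e₁)` is injective; the `e₁` lie in the finite set
`(E.image (fun e => e / e.minFac)).filter ..` of rough numbers with `J`).
-/

set_option autoImplicit false

namespace Pool.Agent.Helper83.BD

open Finset

/-- the sum over the primes -/
private lemma sum_primes (δ : ℝ) (hδ : 0 < δ) (R : ℕ) (hR : 2 ≤ R) :
    ∑ p ∈ ((Icc 1 R).filter Nat.Prime).filter (fun p : ℕ => (R : ℝ) ^ δ ≤ (p : ℝ)), (1 : ℝ) / p ≤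
      3 / δ := by
  have hRr : (2 : ℝ) ≤ R := by exact_mod_cast hR
  have hR0 : (0 : ℝ) < R := by linarith
  have hlog : Real.log 2 ≤ Real.log R := Real.log_le_log (by norm_num) hRr
  have hl2 : 0 < Real.log 2 := Real.log_pos (by norm_num)
  have hlR : 0 < Real.log R := lt_of_lt_of_le hl2 hlog
  have h4 : Real.log 4 = 2 * Real.log 2 := by
    rw [show (4 : ℝ) = 2 ^ 2 by norm_num, Real.log_pow]
    norm_num
  have hm := Pool.Agent.Helper10.mertens_upper R (by omega)
  have h1 : ∀ p ∈ ((Icc 1 R).filter Nat.Prime).filter (fun p : ℕ => (R : ℝ) ^ δ ≤ (p : ℝ)),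
      (1 : ℝ) / p ≤ (1 / (δ * Real.log R)) * (Real.log p / p) := by
    intro p hp
    rw [mem_filter, mem_filter] at hp
    have hp0 : (0 : ℝ) < p := by exact_mod_cast hp.1.2.pos
    have hlp : δ * Real.log R ≤ Real.log p := by
      rw [← Real.log_rpow hR0]
      exact Real.log_le_log (Real.rpow_pos_of_pos hR0 _) hp.2
    have hdl : 0 < δ * Real.log R := mul_pos hδ hlR
    have h2 : 1 ≤ (1 / (δ * Real.log R)) * Real.log p := by
      rw [one_div, inv_mul_eq_div, le_div_iff₀ hdl]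
      linarith
    calc (1 : ℝ) / p ≤ ((1 / (δ * Real.log R)) * Real.log p) / p :=
          div_le_div_of_nonneg_right h2 hp0.le
      _ = _ := by rw [mul_div_assoc]
  calc _ ≤ ∑ p ∈ ((Icc 1 R).filter Nat.Prime).filter (fun p : ℕ => (R : ℝ) ^ δ ≤ (p : ℝ)),
        (1 / (δ * Real.log R)) * (Real.log p / p) := sum_le_sum h1
    _ ≤ ∑ p ∈ (Icc 1 R).filter Nat.Prime, (1 / (δ * Real.log R)) * (Real.log p / p) := by
        refine sum_le_sum_of_subset_of_nonneg (filter_subset _ _) ?_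
        intro p hp _
        rw [mem_filter] at hp
        have hp1 : (1 : ℝ) ≤ p := by exact_mod_cast hp.2.one_lt.le
        have := Real.log_nonneg hp1
        positivity
    _ = (1 / (δ * Real.log R)) * ∑ p ∈ (Icc 1 R).filter Nat.Prime, (Real.log p / p) := by
        rw [mul_sum]
    _ ≤ (1 / (δ * Real.log R)) * (3 * Real.log R) := by
        refine mul_le_mul_of_nonneg_left ?_ (by positivity)
        linarith
    _ = 3 / δ := by
        field_simp

theorem sum_rough (J : ℕ) (δ : ℝ) (hδ : 0 < δ) : ∃ C : ℝ, 0 < C ∧ ∀ R : ℕ, 2 ≤ R → ∀ E : Finset ℕ,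
    (∀ e ∈ E, (e : ℝ) ≤ R ∧ Rough J ((R : ℝ) ^ δ) e) → ∑ e ∈ E, (1 : ℝ) / e ≤ C := by
  induction J with
  | zero =>
    refine ⟨1, one_pos, fun R hR E hE => ?_⟩
    have hsub : E ⊆ {1} := by
      intro e he
      obtain ⟨-, h0, -, h2⟩ := hE e he
      have h3 : ArithmeticFunction.cardFactors e = 0 := Nat.le_zero.mp h2
      rw [ArithmeticFunction.cardFactors_eq_zero_iff_eq_zero_or_one] at h3
      rcases h3 with h3 | h3
      · omega
      · rw [h3]
        exact mem_singleton_self 1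
    calc ∑ e ∈ E, (1 : ℝ) / e ≤ ∑ e ∈ ({1} : Finset ℕ), (1 : ℝ) / e :=
          sum_le_sum_of_subset_of_nonneg hsub (fun _ _ _ => by positivity)
      _ = 1 := by simp
  | succ J ih =>
    obtain ⟨C, hC, h⟩ := ih
    refine ⟨1 + (3 / δ) * C, by positivity, fun R hR E hE => ?_⟩
    obtain ⟨P, hP⟩ : ∃ P : Finset ℕ,
      P = ((Icc 1 R).filter Nat.Prime).filter (fun p : ℕ => (R : ℝ) ^ δ ≤ (p : ℝ)) := ⟨_, rfl⟩
    obtain ⟨F, hF⟩ : ∃ F : Finset ℕ, F = (E.erase 1).image (fun e => e / e.minFac) := ⟨_, rfl⟩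
    have hkey : ∀ e ∈ E.erase 1, e.minFac ∈ P ∧ (e / e.minFac : ℕ) ∈ F ∧
        e.minFac * (e / e.minFac) = e ∧ ((e / e.minFac : ℕ) : ℝ) ≤ R ∧
        Rough J ((R : ℝ) ^ δ) (e / e.minFac) := by
      intro e he
      have he' := he
      rw [mem_erase] at he
      obtain ⟨heR, h0, h1, h2⟩ := hE e he.2
      have hpr : e.minFac.Prime := Nat.minFac_prime he.1
      have hdv : e.minFac ∣ e := Nat.minFac_dvd e
      have hmul : e.minFac * (e / e.minFac) = e := Nat.mul_div_cancel' hdv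
      have hle : e.minFac ≤ e := Nat.minFac_le h0
      have heR' : e ≤ R := by exact_mod_cast heR
      have hd0 : 0 < e / e.minFac := Nat.div_pos hle hpr.pos
      have hdle : e / e.minFac ≤ e := Nat.div_le_self _ _
      refine ⟨?_, ?_, hmul, ?_, hd0, ?_, ?_⟩
      · rw [hP, mem_filter, mem_filter, mem_Icc]
        exact ⟨⟨⟨hpr.one_lt.le, hle.trans heR'⟩, hpr⟩,
          h1 _ (Nat.mem_primeFactors.mpr ⟨hpr, hdv, h0.ne'⟩)⟩
      · rw [hF]
        exact mem_image_of_mem (fun e => e / e.minFac) he'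
      · exact_mod_cast hdle.trans heR'
      · intro p hp
        refine h1 p ?_
        rw [Nat.mem_primeFactors] at hp ⊢
        exact ⟨hp.1, hp.2.1.trans (Nat.div_dvd_of_dvd hdv), h0.ne'⟩
      · have h3 : ArithmeticFunction.cardFactors (e.minFac * (e / e.minFac)) =
            ArithmeticFunction.cardFactors e.minFac +
              ArithmeticFunction.cardFactors (e / e.minFac) :=
          ArithmeticFunction.cardFactors_mul hpr.ne_zero hd0.ne'
        rw [hmul, ArithmeticFunction.cardFactors_apply_prime hpr] at h3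
        omega
    have hFsum : ∑ e ∈ F, (1 : ℝ) / e ≤ C := by
      refine h R hR F ?_
      intro e he
      rw [hF, mem_image] at he
      obtain ⟨a, ha, rfl⟩ := he
      exact ⟨(hkey a ha).2.2.2.1, (hkey a ha).2.2.2.2⟩
    have hPsum : ∑ p ∈ P, (1 : ℝ) / p ≤ 3 / δ := by
      rw [hP]
      exact sum_primes δ hδ R hR
    have hinj : Set.InjOn (fun e : ℕ => (e.minFac, e / e.minFac)) (E.erase 1 : Finset ℕ) := by
      intro a ha b hb hab
      have h1 := (hkey a ha).2.2.1
      have h2 := (hkey b hb).2.2.1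
      simp only [Prod.mk.injEq] at hab
      calc a = a.minFac * (a / a.minFac) := h1.symm
        _ = b.minFac * (b / b.minFac) := congrArg₂ (· * ·) hab.1 hab.2
        _ = b := h2
    have hmain : ∑ e ∈ E.erase 1, (1 : ℝ) / e ≤ (3 / δ) * C := by
      calc ∑ e ∈ E.erase 1, (1 : ℝ) / e
          = ∑ e ∈ E.erase 1, (1 : ℝ) / (e.minFac : ℝ) * (1 / ((e / e.minFac : ℕ) : ℝ)) := by
            refine sum_congr rfl fun e he => ?_
            have h1 := (hkey e he).2.2.1
            have h2 : ((e.minFac : ℕ) : ℝ) * ((e / e.minFac : ℕ) : ℝ) = (e : ℝ) := by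
              exact_mod_cast h1
            rw [← h2, one_div_mul_one_div]
        _ = ∑ x ∈ (E.erase 1).image (fun e : ℕ => (e.minFac, e / e.minFac)),
            (1 : ℝ) / (x.1 : ℝ) * (1 / (x.2 : ℝ)) := by
            rw [sum_image hinj]
        _ ≤ ∑ x ∈ P ×ˢ F, (1 : ℝ) / (x.1 : ℝ) * (1 / (x.2 : ℝ)) := by
            refine sum_le_sum_of_subset_of_nonneg ?_ (fun _ _ _ => by positivity)
            intro x hx
            rw [mem_image] at hx
            obtain ⟨e, he, rfl⟩ := hx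
            exact mem_product.mpr ⟨(hkey e he).1, (hkey e he).2.1⟩
        _ = (∑ p ∈ P, (1 : ℝ) / p) * ∑ e ∈ F, (1 : ℝ) / e := by
            rw [sum_mul_sum, sum_product]
        _ ≤ (3 / δ) * C := by
            refine mul_le_mul hPsum hFsum (sum_nonneg fun _ _ => by positivity) (by positivity)
    by_cases h1 : 1 ∈ E
    · rw [← add_sum_erase E _ h1]
      simp only [Nat.cast_one, div_one]
      linarith
    · rw [erase_eq_of_notMem h1] at hmain
      linarith


end Pool.Agent.Helper83.BD
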