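import Pool.Agent.Helper83.BD.PairsJ
import Pool.Agent.Helper83.BD.SumE

/-!
# BD-08: the sum over the weights of the iterated inequality

MODEL: `blocks` in `Pool/Agent/Helper8/BC/BlocksC.lean` (BC-17) and the dyadic blocks in the proof of `dil` in `Pool/Agent/Helper8/DW/Dil.lean`.
PROOF. `C` = the constant of `sum_GG`, `C₂` the one of `sum_rough J δ`. `pairs_boundJ` with `J`, `N1` and `ε' = ε/(4 C₂)` gives `N, K, H0, X1`. `S j = {e ∈ E | Nat.log 2 e = j} ⊆ Ico (2^j) (2 * 2^j)`,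
`j ∈ range (Nat.log 2 R + 1)` (`1 ≤ e ≤ R^(1 - δ) ≤ R`). Let `S j ≠ ∅` (else the block is `0`); `R^u/2 < 2^j ≤ R^(1 - δ)`.
* RICH (`K (log X)^k ≤ D |S j| H`): `pairs_boundJ` with `B = 2^j`, `w = R^δ`: `≤ ε' (|S j|/2^j) H X`. Its hypotheses, for `R ≥ R0`: `2 (2^j D) ≤ 2 D R ≤ H`, so `(2 (2^j D))^2 ≤ H^2 ≤ X`;
  `H0 * (2 (2^j D)) ≤ 2 D H0 R^(1 - δ) ≤ 2 D R ≤ H` (`H0 ≤ R^δ`); `H ≤ H^2 ≤ X`; `J √N ≤ R^δ`. As `e < 2 * 2^j`: `∑_j |S j|/2^j ≤ 2 ∑_E 1/e ≤ 2 C₂`: total `≤ (ε/2) H X`.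
* POOR: `D |S j| H < K (log X)^k ≤ K D H (H/D)^u0`, `H/D ≤ 4 R`, so `|S j| ≤ 4 K R^u0` (`u0 ≤ 1`). `Helper8.BC.Tc_le` (with `D * 2^j ≤ d e`, `D 2^j ≤ H`): the block is
  `≤ C X D |S j| 2 H/(D 2^j) ≤ 16 C K R^(u0 - u) H X`. There are at most `Nat.log 2 R + 1` blocks, `(Nat.log 2 R + 1) 16 C K R^(u0 - u) ≤ ε/2` for `R ≥ R0`.
(`∑_n GG a n ≤ C X`, `A.card ≤ D`.)
-/

set_option autoImplicit false

namespace Pool.Agent.Helper83.BD

open Finset Pool.Agent.Helper83.HLC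
open Pool.Agent.Helper8.DW (vv mul Per)
open Pool.Agent.Helper8.BC (sg Tc TC PU)

private theorem log_bd (δ : ℝ) (hδ : 0 < δ) (c : ℝ) (hc : 0 < c) : ∃ R0 : ℕ, ∀ R : ℕ, R0 ≤ R →
    ((Nat.log 2 R + 1 : ℕ) : ℝ) * (R : ℝ) ^ (-δ) ≤ c := by
  have h1 : Filter.Tendsto (fun R : ℕ => (4 / δ + 1) * (R : ℝ) ^ (-(δ / 2))) Filter.atTop (nhds 0) := by
    have h2 := (tendsto_rpow_neg_atTop (show 0 < δ / 2 by positivity)).comp
      (tendsto_natCast_atTop_atTop (R := ℝ))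
    have h3 := h2.const_mul (4 / δ + 1)
    rw [mul_zero] at h3
    exact h3
  have h4 := (h1.eventually (gt_mem_nhds hc)).and (Filter.eventually_ge_atTop 1)
  obtain ⟨R0, hR0⟩ := Filter.eventually_atTop.1 h4
  refine ⟨R0, fun R hR => ?_⟩
  obtain ⟨h5, h6⟩ := hR0 R hR
  have hR1 : (1 : ℝ) ≤ R := by exact_mod_cast h6
  have hRp : (0 : ℝ) < R := by linarith
  have h7 : ((Nat.log 2 R : ℕ) : ℝ) ≤ 2 * Real.log R := by
    have h8 : (2 : ℝ) ^ (Nat.log 2 R) ≤ R := by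
      exact_mod_cast Nat.pow_log_le_self 2 (by omega)
    have h9 := Real.log_le_log (by positivity) h8
    rw [Real.log_pow] at h9
    have h10 : (1 : ℝ) / 2 ≤ Real.log 2 := by
      have := Real.log_two_gt_d9
      linarith
    have h11 : (0 : ℝ) ≤ ((Nat.log 2 R : ℕ) : ℝ) := Nat.cast_nonneg _
    nlinarith
  have h8 := Real.log_le_rpow_div hRp.le (show 0 < δ / 2 by positivity)
  have h9 : (1 : ℝ) ≤ (R : ℝ) ^ (δ / 2) := Real.one_le_rpow hR1 (by positivity)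
  have h10 : ((Nat.log 2 R + 1 : ℕ) : ℝ) ≤ (4 / δ + 1) * (R : ℝ) ^ (δ / 2) := by
    push_cast
    have h11 : (R : ℝ) ^ (δ / 2) / (δ / 2) = 2 / δ * (R : ℝ) ^ (δ / 2) := by
      field_simp
    rw [h11] at h8
    have h12 : (4 / δ + 1) * (R : ℝ) ^ (δ / 2) = 2 * (2 / δ * (R : ℝ) ^ (δ / 2)) + (R : ℝ) ^ (δ / 2) := by
      ring
    rw [h12]
    linarith
  calc ((Nat.log 2 R + 1 : ℕ) : ℝ) * (R : ℝ) ^ (-δ) ≤ (4 / δ + 1) * (R : ℝ) ^ (δ / 2) * (R : ℝ) ^ (-δ) :=
        mul_le_mul_of_nonneg_right h10 (by positivity)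
    _ = (4 / δ + 1) * (R : ℝ) ^ (-(δ / 2)) := by
        rw [mul_assoc, ← Real.rpow_add hRp]
        congr 2
        ring
    _ ≤ c := h5.le

private theorem rpow_ev (w : ℝ) (hw : 0 < w) (c : ℝ) : ∃ R0 : ℕ, ∀ R : ℕ, R0 ≤ R → c ≤ (R : ℝ) ^ w := by
  have h2 := (tendsto_rpow_atTop hw).comp (tendsto_natCast_atTop_atTop (R := ℝ))
  exact Filter.eventually_atTop.1 (h2.eventually_ge_atTop c)

theorem blocksJ {k : ℕ} (a : Fin k → ℕ) (ha : Function.Injective a) {q : ℕ} {b : ℕ → ℝ} (hb : Per q b) (u0 u δ : ℝ)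
    (hu0 : 0 < u0) (huu : u0 < u) (hu1 : u0 < 1) (hδ : 0 < δ) (hδ1 : δ ≤ 1 / 2) (J N1 : ℕ) (ε : ℝ) (hε : 0 < ε) :
    ∃ N : ℕ, N1 ≤ N ∧ ∃ R0 X0 : ℕ, ∀ X : ℕ, X0 ≤ X → ∀ D H R y : ℕ, 1 ≤ D → R0 ≤ R → 2 * D * R ≤ H → H ≤ 4 * D * R →
      H ^ 2 ≤ X → y ≤ X → Real.log X ^ k ≤ D * H * ((H : ℝ) / D) ^ u0 →
        ∀ A ⊆ Ico D (2 * D), (∀ d ∈ A, sg N d ≤ 1 / √N) →
          ∀ E : Finset ℕ, (∀ e ∈ E, (R : ℝ) ^ u ≤ e ∧ (e : ℝ) ≤ (R : ℝ) ^ (1 - δ) ∧ Rough J ((R : ℝ) ^ δ) e) →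
            ∀ c : ℕ → ℕ → ℝ, (∀ d h, |c d h| ≤ 1) →
              ∑ n ∈ Icc 1 X, GG a n * ∑ d ∈ A, ∑ e ∈ E, Tc b c y H n d (d * e) ≤ ε * H * X := by
  obtain ⟨C, hC, X1, hGG⟩ := sum_GG a ha
  obtain ⟨C2, hC2, hrough⟩ := sum_rough J δ hδ
  obtain ⟨N, hN1, K, hK, H0, X2, hF⟩ := pairs_boundJ a ha hb J N1 (ε / (4 * C2)) (by positivity)
  obtain ⟨R1, hR1⟩ := rpow_ev δ hδ (max (H0 : ℝ) 1)
  obtain ⟨R3, hR3⟩ := rpow_ev δ hδ (J * √N)
  obtain ⟨R4, hR4⟩ := log_bd (u - u0) (by linarith) (ε / (32 * C * K)) (by positivity)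
  refine ⟨N, hN1, R1 + R3 + R4 + 2, max X1 X2,
    fun X hX D H R y hD hR hDRH hH4 hHHX hyX hlog A hAsub hAsg E hE c hc => ?_⟩
  have hR1' := hR1 R (by omega)
  have hR3' := hR3 R (by omega)
  have hR4' := hR4 R (by omega)
  have hR2 : 2 ≤ R := by omega
  have hRpos : 1 ≤ R := by omega
  have hRr : (1 : ℝ) ≤ R := by exact_mod_cast hRpos
  have hR0 : (0 : ℝ) < R := by linarith
  have hHpos : 0 < H := lt_of_lt_of_le (Nat.mul_pos (Nat.mul_pos (by norm_num) hD) hRpos) hDRH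
  have hHX : H ≤ X := le_trans (Nat.le_self_pow (by norm_num) H) hHHX
  have hHR : (0 : ℝ) < H := by exact_mod_cast hHpos
  have hDR : (0 : ℝ) < D := by exact_mod_cast hD
  have hXR : (0 : ℝ) < X := by exact_mod_cast lt_of_lt_of_le hHpos hHX
  have hsum := hGG X ((le_max_left _ _).trans hX)
  have hRv : max (H0 : ℝ) 1 * (R : ℝ) ^ (1 - δ) ≤ R := by
    calc max (H0 : ℝ) 1 * (R : ℝ) ^ (1 - δ) ≤ (R : ℝ) ^ δ * (R : ℝ) ^ (1 - δ) :=
          mul_le_mul_of_nonneg_right hR1' (by positivity)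
      _ = R := by
          rw [← Real.rpow_add hR0]
          norm_num
  have hRvR : (R : ℝ) ^ (1 - δ) ≤ R := by
    refine le_trans ?_ hRv
    exact le_mul_of_one_le_left (by positivity) (le_max_right _ _)
  have hER' : ∀ e ∈ E, (e : ℝ) ≤ R := fun e he => (hE e he).2.1.trans hRvR
  have hER : ∀ e ∈ E, e ≤ R := fun e he => by
    exact_mod_cast hER' e he
  have hMle : ∑ e ∈ E, (1 : ℝ) / e ≤ C2 := hrough R hR2 E fun e he => ⟨hER' e he, (hE e he).2.2⟩
  have hAcard : (A.card : ℝ) ≤ D := by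
    have h1 := Finset.card_le_card hAsub
    rw [Nat.card_Ico] at h1
    have h2 : A.card ≤ D := by omega
    exact_mod_cast h2
  set L : ℕ := Nat.log 2 R + 1 with hL
  set S : ℕ → Finset ℕ := fun j => E.filter (fun e => Nat.log 2 e = j) with hS
  have hmaps : ∀ e ∈ E, Nat.log 2 e ∈ range L := by
    intro e he
    rw [Finset.mem_range, hL]
    exact Nat.lt_succ_of_le (Nat.log_mono_right (hER e he))
  have hSmem : ∀ j, ∀ e ∈ S j, e ∈ E ∧ 2 ^ j ≤ e ∧ e < 2 * 2 ^ j := by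
    intro j e he
    rw [hS] at he
    simp only [Finset.mem_filter] at he
    have h1 : 0 < e := (hE e he.1).2.2.1
    refine ⟨he.1, ?_, ?_⟩
    · rw [← he.2]
      exact Nat.pow_log_le_self 2 h1.ne'
    · have h2 := Nat.lt_pow_succ_log_self (b := 2) one_lt_two e
      rw [he.2, pow_succ] at h2
      omega
  have hfib : ∀ g : ℕ → ℝ, ∑ j ∈ range L, ∑ e ∈ S j, g e = ∑ e ∈ E, g e := fun g =>
    Finset.sum_fiberwise_of_maps_to hmaps g
  set T : ℝ := (R : ℝ) ^ (-(u - u0)) with hT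
  have hTpos : 0 < T := by positivity
  -- one block
  have hblock : ∀ j, ∑ n ∈ Icc 1 X, GG a n * ∑ d ∈ A, ∑ e ∈ S j, Tc b c y H n d (d * e) ≤
      ε / (4 * C2) * ((S j).card / (2 ^ j : ℝ)) * H * X + 16 * C * K * T * H * X := by
    intro j
    have hpos2 : 0 ≤ 16 * C * K * T * H * X := by positivity
    have hpos1 : 0 ≤ ε / (4 * C2) * ((S j).card / (2 ^ j : ℝ)) * H * X := by positivity
    rcases (S j).eq_empty_or_nonempty with hemp | ⟨p0, hp0⟩
    · have h1 : ∑ n ∈ Icc 1 X, GG a n * ∑ d ∈ A, ∑ e ∈ S j, Tc b c y H n d (d * e) = 0 := by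
        rw [hemp]
        simp
      rw [h1]
      linarith
    · obtain ⟨hp0P, hp0l, hp0u⟩ := hSmem j p0 hp0
      have hB1 : 1 ≤ 2 ^ j := Nat.one_le_two_pow
      have h2jv : ((2 ^ j : ℕ) : ℝ) ≤ (R : ℝ) ^ (1 - δ) :=
        le_trans (by exact_mod_cast hp0l) (hE p0 hp0P).2.1
      have hB3 : H0 * 2 ^ j ≤ R := by
        have h1 : (H0 : ℝ) * ((2 ^ j : ℕ) : ℝ) ≤ R :=
          le_trans (mul_le_mul (le_max_left _ _) h2jv (Nat.cast_nonneg _) (by positivity)) hRv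
        exact_mod_cast h1
      have hB4 : 2 ^ j ≤ R := hp0l.trans (hER p0 hp0P)
      have h1BD : 2 * (2 ^ j * D) ≤ H := by
        calc 2 * (2 ^ j * D) = 2 * D * 2 ^ j := by ring
          _ ≤ 2 * D * R := Nat.mul_le_mul_left _ hB4
          _ ≤ H := hDRH
      have hsub : S j ⊆ Ico (2 ^ j) (2 * 2 ^ j) := by
        intro e he
        rw [Finset.mem_Ico]
        exact ⟨(hSmem j e he).2.1, (hSmem j e he).2.2⟩
      by_cases hrich : K * Real.log X ^ k ≤ D * ((S j).card : ℝ) * H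
      · have h1 := hF X ((le_max_right _ _).trans hX) D (2 ^ j) H y hD hB1
          ((Nat.pow_le_pow_left h1BD 2).trans hHHX)
          (by
            calc H0 * (2 * (2 ^ j * D)) = 2 * D * (H0 * 2 ^ j) := by ring
              _ ≤ 2 * D * R := Nat.mul_le_mul_left _ hB3
              _ ≤ H := hDRH) h1BD hHX hyX A hAsub hAsg (S j) hsub ((R : ℝ) ^ δ) (by positivity) hR3'
          (fun e he => (hE e (hSmem j e he).1).2.2) hrich c hc
        push_cast at h1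
        linarith
      · rw [not_le] at hrich
        have h2j : (0 : ℝ) < 2 ^ j := by positivity
        have hcard : ((S j).card : ℝ) / 2 ^ j ≤ 8 * K * T := by
          have h1 : ((S j).card : ℝ) ≤ K * ((H : ℝ) / D) ^ u0 := by
            have h2 : D * ((S j).card : ℝ) * H < K * (D * H * ((H : ℝ) / D) ^ u0) :=
              lt_of_lt_of_le hrich (mul_le_mul_of_nonneg_left hlog hK.le)
            have h3 : ((S j).card : ℝ) * (D * H) ≤ K * ((H : ℝ) / D) ^ u0 * (D * H) := by linarith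
            exact le_of_mul_le_mul_right h3 (by positivity)
          have h2 : ((H : ℝ) / D) ^ u0 ≤ 4 * (R : ℝ) ^ u0 := by
            have h3 : (H : ℝ) / D ≤ 4 * R := by
              rw [div_le_iff₀ hDR]
              have h4 : (H : ℝ) ≤ ((4 * D * R : ℕ) : ℝ) := by exact_mod_cast hH4
              push_cast at h4
              linarith
            calc ((H : ℝ) / D) ^ u0 ≤ (4 * (R : ℝ)) ^ u0 := Real.rpow_le_rpow (by positivity) h3 hu0.le
              _ = 4 ^ u0 * (R : ℝ) ^ u0 := Real.mul_rpow (by norm_num) hR0.le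
              _ ≤ 4 * (R : ℝ) ^ u0 := by
                  refine mul_le_mul_of_nonneg_right ?_ (by positivity)
                  calc (4 : ℝ) ^ u0 ≤ 4 ^ (1 : ℝ) :=
                        Real.rpow_le_rpow_of_exponent_le (by norm_num) (by linarith)
                    _ = 4 := Real.rpow_one 4
          have h3 : (R : ℝ) ^ u ≤ 2 * 2 ^ j := by
            have h4 : (p0 : ℝ) ≤ 2 * 2 ^ j := by exact_mod_cast hp0u.le
            exact (hE p0 hp0P).1.trans h4
          have h5 : T * (R : ℝ) ^ u = (R : ℝ) ^ u0 := by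
            rw [hT, ← Real.rpow_add hR0]
            congr 1
            ring
          rw [div_le_iff₀ h2j]
          calc ((S j).card : ℝ) ≤ K * (4 * (R : ℝ) ^ u0) :=
                h1.trans (mul_le_mul_of_nonneg_left h2 hK.le)
            _ = 4 * K * T * (R : ℝ) ^ u := by rw [← h5]; ring
            _ ≤ 4 * K * T * (2 * 2 ^ j) := mul_le_mul_of_nonneg_left h3 (by positivity)
            _ = 8 * K * T * 2 ^ j := by ring
        have hTT : ∀ n ∈ Icc 1 X, GG a n * ∑ d ∈ A, ∑ e ∈ S j, Tc b c y H n d (d * e) ≤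
            GG a n * ((A.card : ℝ) * (((S j).card : ℝ) * (2 * H / ((2 ^ j * D : ℕ) : ℝ)))) := by
          intro n _
          refine mul_le_mul_of_nonneg_left ?_ (GG_nonneg a n)
          calc ∑ d ∈ A, ∑ e ∈ S j, Tc b c y H n d (d * e)
              ≤ ∑ _d ∈ A, ∑ _e ∈ S j, 2 * (H : ℝ) / ((2 ^ j * D : ℕ) : ℝ) := by
                refine Finset.sum_le_sum fun d hd => Finset.sum_le_sum fun e he =>
                  Pool.Agent.Helper8.BC.Tc_le hb c hc y H n d _ (2 ^ j * D) (Nat.mul_pos hB1 hD) ?_ ?_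
                · rw [mul_comm (2 ^ j) D]
                  exact Nat.mul_le_mul (Finset.mem_Ico.1 (hAsub hd)).1 (hSmem j e he).2.1
                · refine le_trans ?_ h1BD
                  exact Nat.le_mul_of_pos_left _ (by norm_num)
            _ = _ := by
                simp only [Finset.sum_const, nsmul_eq_mul]
        calc ∑ n ∈ Icc 1 X, GG a n * ∑ d ∈ A, ∑ e ∈ S j, Tc b c y H n d (d * e)
            ≤ ∑ n ∈ Icc 1 X, GG a n * ((A.card : ℝ) * (((S j).card : ℝ) * (2 * H / ((2 ^ j * D : ℕ) : ℝ)))) :=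
              Finset.sum_le_sum hTT
          _ = (∑ n ∈ Icc 1 X, GG a n) * ((A.card : ℝ) * (((S j).card : ℝ) * (2 * H / ((2 ^ j * D : ℕ) : ℝ)))) := by
              rw [← Finset.sum_mul]
          _ ≤ (C * X) * ((D : ℝ) * (((S j).card : ℝ) * (2 * H / ((2 ^ j * D : ℕ) : ℝ)))) :=
              mul_le_mul hsum (mul_le_mul_of_nonneg_right hAcard (by positivity)) (by positivity) (by positivity)
          _ = 2 * C * H * X * (((S j).card : ℝ) / 2 ^ j) := by
              push_cast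
              field_simp
          _ ≤ 2 * C * H * X * (8 * K * T) := mul_le_mul_of_nonneg_left hcard (by positivity)
          _ = 16 * C * K * T * H * X := by ring
          _ ≤ _ := by linarith
  -- the sum over the blocks
  have hcardsum : ∑ j ∈ range L, ((S j).card / (2 ^ j : ℝ)) ≤ 2 * C2 := by
    calc ∑ j ∈ range L, ((S j).card / (2 ^ j : ℝ)) ≤ ∑ j ∈ range L, ∑ e ∈ S j, 2 * ((1 : ℝ) / e) := by
          refine Finset.sum_le_sum fun j _ => ?_
          have h1 : ((S j).card / (2 ^ j : ℝ)) = ∑ _e ∈ S j, 1 / (2 ^ j : ℝ) := by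
            rw [Finset.sum_const, nsmul_eq_mul]
            ring
          rw [h1]
          refine Finset.sum_le_sum fun e he => ?_
          have h2 := (hSmem j e he).2.2
          have h3 : 0 < e := (hE e (hSmem j e he).1).2.2.1
          have h4 : (0 : ℝ) < e := by exact_mod_cast h3
          have h5 : (e : ℝ) ≤ 2 * 2 ^ j := by exact_mod_cast h2.le
          rw [mul_one_div, div_le_div_iff₀ (by positivity) h4]
          linarith
      _ = 2 * ∑ e ∈ E, (1 : ℝ) / e := by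
          rw [hfib (fun e => 2 * ((1 : ℝ) / e)), ← Finset.mul_sum]
      _ ≤ 2 * C2 := by linarith
  have h1 : ∑ n ∈ Icc 1 X, GG a n * ∑ d ∈ A, ∑ e ∈ E, Tc b c y H n d (d * e) =
      ∑ j ∈ range L, ∑ n ∈ Icc 1 X, GG a n * ∑ d ∈ A, ∑ e ∈ S j, Tc b c y H n d (d * e) := by
    rw [Finset.sum_comm]
    refine Finset.sum_congr rfl fun n _ => ?_
    rw [← Finset.mul_sum]
    congr 1
    rw [Finset.sum_comm (s := range L)]
    exact Finset.sum_congr rfl fun d _ => (hfib (fun e => Tc b c y H n d (d * e))).symm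
  rw [h1]
  calc ∑ j ∈ range L, ∑ n ∈ Icc 1 X, GG a n * ∑ d ∈ A, ∑ e ∈ S j, Tc b c y H n d (d * e)
      ≤ ∑ j ∈ range L, (ε / (4 * C2) * ((S j).card / (2 ^ j : ℝ)) * H * X + 16 * C * K * T * H * X) :=
        Finset.sum_le_sum fun j _ => hblock j
    _ = ε / (4 * C2) * H * X * ∑ j ∈ range L, ((S j).card / (2 ^ j : ℝ)) + 16 * C * K * H * X * (L * T) := by
        rw [Finset.sum_add_distrib, Finset.sum_const, Finset.card_range, nsmul_eq_mul, Finset.mul_sum]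
        congr 1
        · exact Finset.sum_congr rfl fun j _ => by ring
        · ring
    _ ≤ ε / (4 * C2) * H * X * (2 * C2) + 16 * C * K * H * X * (ε / (32 * C * K)) :=
        add_le_add (mul_le_mul_of_nonneg_left hcardsum (by positivity))
          (mul_le_mul_of_nonneg_left hR4' (by positivity))
    _ = ε * H * X := by
        field_simp
        ring

end Pool.Agent.Helper83.BD
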