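import Pool.Agent.Helper83.BD.Defs

/-!
# BD-02: the inner inequality in the windows of the multiples of the primes

PROOF. Put `β e = θ * ∑_(p ∈ P) (if p ∣ e ∧ e / p ∈ E' p then β' p (e / p) else 0)`.
* `0 ≤ β e` clear. `β e ≤ B (J + 1)`: if some `p₀` has a nonzero condition, `e = p₀ e₀` with `0 < e₀`, `Ω e₀ ≤ J`, so `e > 0`, `Ω e ≤ J + 1` (`cardFactors_mul`, `cardFactors_apply_prime`), and the number of
  the primes `p ∈ P` dividing `e` is at most `card e.primeFactors ≤ Ω e ≤ J + 1` (`Nat.cardDistinctFactors_apply`/`ArithmeticFunction.cardDistinctFactors_le_cardFactors` or `List.toFinset_card_le`); each term is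
  `≤ θ B ≤ B`. If all conditions fail, `β e = 0` (`0 ≤ B` as `0 ≤ β' p e ≤ B`).
* Fix `w`, `K ≥ R`, `F`. For `p ∈ P` the multiples of `p` in `Ioc w (w + K)` are the `p m'`, `m' ∈ Ioc (w / p) ((w + K) / p)` (see `mul_sum'` in `Pool/Agent/Helper8/DW/Dil.lean`); `K_p = (w + K) / p - w / p`,
  `K_p ≥ K / p ≥ R / p` (`Nat.add_div_le_add_div`), `(K_p : ℝ) ≤ K / p + 1`. Apply `htk` to `F' m' = F (p * m')`: the `m'` with `e' ∣ m'` correspond to the `m` with `p e' ∣ m`. So, with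
  `T e = ‖∑ m ∈ (Ioc w (w + K)).filter (e ∣ m), F m‖`: `T p ≤ c₂ (K / p + 1) + ∑_(e' ∈ E' p) β' p e' * T (p e')`.
* Sum over `p ∈ P`, times `θ ≤ 1`: `θ ∑_p ∑_(e' ∈ E' p) β' p e' T (p e') = ∑_(e ∈ union) β e T e` (write both as the sum over `e ∈ union`, `p ∈ P` of `if p ∣ e ∧ e / p ∈ E' p then ..`; for fixed `p` the map
  `e' ↦ p e'` is a bijection from `E' p` to the `e ∈ union` with `p ∣ e`, `e / p ∈ E' p`), `Finset.sum_comm`.
-/

set_option autoImplicit false

namespace Pool.Agent.Helper83.BD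

open Finset

lemma comb_mul (p e w K : ℕ) (hp : 0 < p) (F : ℕ → ℂ) :
    ∑ m ∈ (Ioc w (w + K)).filter (fun m => p * e ∣ m), F m =
      ∑ m ∈ (Ioc (w / p) ((w + K) / p)).filter (fun m => e ∣ m), F (p * m) := by
  refine Finset.sum_bij' (fun m _ => m / p) (fun m _ => p * m) ?_ ?_ ?_ ?_ ?_
  · intro m hm
    rw [Finset.mem_filter, Finset.mem_Ioc] at hm
    obtain ⟨hm1, c, rfl⟩ := hm
    rw [Finset.mem_filter, Finset.mem_Ioc, mul_assoc, Nat.mul_div_cancel_left _ hp]
    rw [mul_assoc] at hm1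
    exact ⟨⟨Nat.div_lt_of_lt_mul (by omega), (Nat.le_div_iff_mul_le hp).2 (by
      rw [mul_comm]; omega)⟩, Dvd.intro _ rfl⟩
  · intro m hm
    rw [Finset.mem_filter, Finset.mem_Ioc] at hm
    have h1 : w < p * m := by
      have := (Nat.div_lt_iff_lt_mul hp).1 hm.1.1
      rwa [mul_comm] at this
    have h2 : p * m ≤ w + K := by
      have := (Nat.le_div_iff_mul_le hp).1 hm.1.2
      rwa [mul_comm] at this
    rw [Finset.mem_filter, Finset.mem_Ioc]
    exact ⟨⟨h1, h2⟩, Nat.mul_dvd_mul_left p hm.2⟩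
  · intro m hm
    rw [Finset.mem_filter] at hm
    exact Nat.mul_div_cancel' ((Dvd.intro _ rfl).trans hm.2)
  · intro m hm
    exact Nat.mul_div_cancel_left _ hp
  · intro m hm
    rw [Finset.mem_filter] at hm
    rw [Nat.mul_div_cancel' ((Dvd.intro _ rfl).trans hm.2)]

theorem comb (P : Finset ℕ) (hP : ∀ p ∈ P, p.Prime) (E' : ℕ → Finset ℕ) (β' : ℕ → ℕ → ℝ) (B c₂ θ : ℝ)
    (hβ : ∀ p e, 0 ≤ β' p e) (hB : ∀ p e, β' p e ≤ B) (hc : 0 ≤ c₂) (hθ : 0 ≤ θ) (hθ1 : θ ≤ 1) (J R : ℕ)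
    (hJ : ∀ p ∈ P, ∀ e ∈ E' p, 0 < e ∧ ArithmeticFunction.cardFactors e ≤ J)
    (htk : ∀ p ∈ P, ∀ w K : ℕ, R / p ≤ K → ∀ F : ℕ → ℂ, (∀ m, ‖F m‖ ≤ 1) →
      ‖∑ m ∈ Ioc w (w + K), F m‖ ≤
        c₂ * K + ∑ e ∈ E' p, β' p e * ‖∑ m ∈ (Ioc w (w + K)).filter (fun m => e ∣ m), F m‖) :
    ∃ β : ℕ → ℝ, (∀ e, 0 ≤ β e) ∧ (∀ e, β e ≤ B * (J + 1)) ∧ ∀ w K : ℕ, R ≤ K → ∀ F : ℕ → ℂ, (∀ m, ‖F m‖ ≤ 1) →
      θ * ∑ p ∈ P, ‖∑ m ∈ (Ioc w (w + K)).filter (fun m => p ∣ m), F m‖ ≤
        θ * c₂ * (K * (∑ p ∈ P, (1 : ℝ) / p) + P.card) +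
          ∑ e ∈ P.biUnion (fun p => (E' p).image (fun e => p * e)),
            β e * ‖∑ m ∈ (Ioc w (w + K)).filter (fun m => e ∣ m), F m‖ := by
  have hB0 : 0 ≤ B := (hβ 0 0).trans (hB 0 0)
  obtain ⟨cnd, hcnd⟩ : ∃ cnd : ℕ → Finset ℕ, ∀ e, cnd e = P.filter (fun p => p ∣ e ∧ e / p ∈ E' p) :=
    ⟨_, fun e => rfl⟩
  refine ⟨fun e => θ * ∑ p ∈ P, (if p ∣ e ∧ e / p ∈ E' p then β' p (e / p) else 0), ?_, ?_, ?_⟩
  · intro e
    refine mul_nonneg hθ (Finset.sum_nonneg fun p _ => ?_)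
    split_ifs
    · exact hβ _ _
    · exact le_rfl
  · intro e
    have hnn : 0 ≤ ∑ p ∈ P, (if p ∣ e ∧ e / p ∈ E' p then β' p (e / p) else 0) := by
      refine Finset.sum_nonneg fun p _ => ?_
      split_ifs
      · exact hβ _ _
      · exact le_rfl
    refine (mul_le_of_le_one_left hnn hθ1).trans ?_
    rw [← Finset.sum_filter, ← hcnd]
    rcases (cnd e).eq_empty_or_nonempty with h | ⟨p₀, hp₀⟩
    · rw [h, Finset.sum_empty]
      positivity
    · rw [hcnd, Finset.mem_filter] at hp₀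
      obtain ⟨hp₀P, hdvd, hmem⟩ := hp₀
      obtain ⟨h1, h2⟩ := hJ p₀ hp₀P _ hmem
      have hpr := hP p₀ hp₀P
      have he : e = p₀ * (e / p₀) := (Nat.mul_div_cancel' hdvd).symm
      have he0 : e ≠ 0 := by
        rw [he]
        exact mul_ne_zero hpr.ne_zero h1.ne'
      have hΩ : ArithmeticFunction.cardFactors e ≤ J + 1 := by
        rw [he, ArithmeticFunction.cardFactors_mul hpr.ne_zero h1.ne',
          ArithmeticFunction.cardFactors_apply_prime hpr]
        omega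
      have hcard : (cnd e).card ≤ J + 1 := by
        refine le_trans (le_trans (Finset.card_le_card (t := e.primeFactors) ?_) ?_) hΩ
        · intro p hp
          rw [hcnd, Finset.mem_filter] at hp
          exact Nat.mem_primeFactors.2 ⟨hP p hp.1, hp.2.1, he0⟩
        · rw [ArithmeticFunction.cardFactors_apply]
          exact List.toFinset_card_le _
      calc ∑ p ∈ cnd e, β' p (e / p) ≤ ∑ _p ∈ cnd e, B := Finset.sum_le_sum fun p _ => hB _ _
        _ = (cnd e).card * B := by rw [Finset.sum_const, nsmul_eq_mul]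
        _ ≤ ((J + 1 : ℕ) : ℝ) * B := by
          exact mul_le_mul_of_nonneg_right (by exact_mod_cast hcard) hB0
        _ = B * (J + 1) := by push_cast; ring
  · intro w K hK F hF
    obtain ⟨T, hT⟩ : ∃ T : ℕ → ℝ, ∀ e, T e = ‖∑ m ∈ (Ioc w (w + K)).filter (fun m => e ∣ m), F m‖ :=
      ⟨_, fun e => rfl⟩
    simp only [← hT]
    have key : ∀ p ∈ P, T p ≤ c₂ * (K * (1 / (p : ℝ)) + 1) + ∑ e ∈ E' p, β' p e * T (p * e) := by
      intro p hp
      have hpp := (hP p hp).pos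
      obtain ⟨Kp, hKp⟩ : ∃ Kp, (w + K) / p = w / p + Kp := by
        refine ⟨(w + K) / p - w / p, ?_⟩
        have := Nat.div_le_div_right (c := p) (Nat.le_add_right w K)
        omega
      have h1 : R / p ≤ Kp := by
        have h2 : w / p + K / p ≤ (w + K) / p := Nat.div_add_div_le_add_div
        have h3 := Nat.div_le_div_right (c := p) hK
        omega
      have h2 := htk p hp (w / p) Kp h1 (fun m => F (p * m)) (fun m => hF _)
      have e1 : T p = ‖∑ m ∈ Ioc (w / p) (w / p + Kp), F (p * m)‖ := by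
        have := comb_mul p 1 w K hpp F
        rw [mul_one, hKp] at this
        rw [hT, this]
        simp
      have e2 : ∀ e, T (p * e) =
          ‖∑ m ∈ (Ioc (w / p) (w / p + Kp)).filter (fun m => e ∣ m), F (p * m)‖ := by
        intro e
        have := comb_mul p e w K hpp F
        rw [hKp] at this
        rw [hT, this]
      rw [← e1] at h2
      simp only [← e2] at h2
      refine h2.trans (add_le_add_left ?_ _)
      refine mul_le_mul_of_nonneg_left ?_ hc
      have hp0 : (0 : ℝ) < p := by exact_mod_cast hpp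
      have h3 : p * ((w + K) / p) ≤ w + K := Nat.mul_div_le _ _
      have h4 : w < p * (w / p + 1) := Nat.lt_mul_div_succ w hpp
      rw [hKp] at h3
      have h5 : p * Kp < K + p := by nlinarith
      have h6 : (p : ℝ) * Kp ≤ K + p := by exact_mod_cast h5.le
      rw [mul_one_div, ← sub_le_iff_le_add, le_div_iff₀ hp0]
      linarith
    have hsum : θ * ∑ p ∈ P, ∑ e ∈ E' p, β' p e * T (p * e) =
        ∑ e ∈ P.biUnion (fun p => (E' p).image (fun e => p * e)),
          (θ * ∑ p ∈ P, (if p ∣ e ∧ e / p ∈ E' p then β' p (e / p) else 0)) * T e := by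
      have e1 : ∀ e, (θ * ∑ p ∈ P, (if p ∣ e ∧ e / p ∈ E' p then β' p (e / p) else 0)) * T e =
          θ * ∑ p ∈ P, (if p ∣ e ∧ e / p ∈ E' p then β' p (e / p) * T e else 0) := by
        intro e
        rw [mul_assoc, Finset.sum_mul]
        congr 1
        refine Finset.sum_congr rfl fun p _ => ?_
        split_ifs
        · rfl
        · rw [zero_mul]
      simp only [e1]
      rw [← Finset.mul_sum, Finset.sum_comm]
      congr 1
      refine Finset.sum_congr rfl fun p hp => ?_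
      have hpp := (hP p hp).pos
      rw [← Finset.sum_filter]
      have e2 : (P.biUnion (fun p => (E' p).image (fun e => p * e))).filter
          (fun e => p ∣ e ∧ e / p ∈ E' p) = (E' p).image (fun e => p * e) := by
        ext e
        rw [Finset.mem_filter, Finset.mem_image]
        constructor
        · rintro ⟨-, h1, h2⟩
          exact ⟨_, h2, Nat.mul_div_cancel' h1⟩
        · rintro ⟨e', he', rfl⟩
          refine ⟨Finset.mem_biUnion.2 ⟨p, hp, Finset.mem_image.2 ⟨e', he', rfl⟩⟩,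
            Dvd.intro _ rfl, ?_⟩
          rw [Nat.mul_div_cancel_left _ hpp]
          exact he'
      rw [e2, Finset.sum_image]
      · refine Finset.sum_congr rfl fun e he => ?_
        rw [Nat.mul_div_cancel_left _ hpp]
      · intro a _ b _ hab
        exact Nat.eq_of_mul_eq_mul_left hpp hab
    rw [← hsum]
    calc θ * ∑ p ∈ P, T p ≤ θ * ∑ p ∈ P, (c₂ * (K * (1 / (p : ℝ)) + 1) +
          ∑ e ∈ E' p, β' p e * T (p * e)) :=
          mul_le_mul_of_nonneg_left (Finset.sum_le_sum key) hθ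
      _ = θ * c₂ * (K * (∑ p ∈ P, (1 : ℝ) / p) + P.card) +
          θ * ∑ p ∈ P, ∑ e ∈ E' p, β' p e * T (p * e) := by
          rw [Finset.sum_add_distrib, ← Finset.mul_sum, Finset.sum_add_distrib, ← Finset.mul_sum,
            Finset.sum_const, nsmul_eq_mul, mul_one]
          ring

end Pool.Agent.Helper83.BD
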