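import Pool.Agent.Helper8.BC.Defs

/-!
# Project BD (MP_e6fa8b_nt): extension of project BC (Helper8) to all `u < 1`: definitions

`Cl u` is a pointwise inequality of Turán-Kubilius type: for windows of length at least `R` the sum of an arbitrary bounded function is at most `c` times
the length (`c < 1`) plus a weighted sum of the sums along the multiples of integers `e` with `R ^ u ≤ e ≤ R ^ (1 - δ)`, which have at most `J` prime
factors, all at least `R ^ δ`. For `u < 1/2` one takes primes; in general one iterates.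
-/

set_option autoImplicit false

namespace Pool.Agent.Helper83.BD

open Finset

/-- A positive integer with at most `J` prime factors, all of them at least `w`. -/
def Rough (J : ℕ) (w : ℝ) (e : ℕ) : Prop :=
  0 < e ∧ (∀ p ∈ e.primeFactors, w ≤ (p : ℝ)) ∧ ArithmeticFunction.cardFactors e ≤ J

/-- The inequality for windows of length at least `R`. -/
structure Fam (u δ B c : ℝ) (J R : ℕ) (E : Finset ℕ) (β : ℕ → ℝ) : Prop where
  lo : ∀ e ∈ E, (R : ℝ) ^ u ≤ e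
  hi : ∀ e ∈ E, (e : ℝ) ≤ (R : ℝ) ^ (1 - δ)
  ro : ∀ e ∈ E, Rough J ((R : ℝ) ^ δ) e
  nn : ∀ e, 0 ≤ β e
  le : ∀ e, β e ≤ B
  tk : ∀ w K : ℕ, R ≤ K → ∀ F : ℕ → ℂ, (∀ m, ‖F m‖ ≤ 1) →
    ‖∑ m ∈ Ioc w (w + K), F m‖ ≤
      c * K + ∑ e ∈ E, β e * ‖∑ m ∈ (Ioc w (w + K)).filter (fun m => e ∣ m), F m‖

/-- The claim: constants `c < 1`, `δ`, `B`, `J` which do not depend on `R`. -/
def Cl (u : ℝ) : Prop :=
  ∃ c δ B : ℝ, 0 ≤ c ∧ c < 1 ∧ 0 < δ ∧ δ ≤ 1 / 2 ∧ 0 ≤ B ∧ ∃ J R0 : ℕ, ∀ R : ℕ, R0 ≤ R →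
    ∃ (E : Finset ℕ) (β : ℕ → ℝ), Fam u δ B c J R E β

/-- The rank of a pair `(d, e)`: the number of the `e' ∈ S`, `e' < e`, which divide `d e`. -/
def rkJ (S : Finset ℕ) (x : ℕ × ℕ) : ℕ := (S.filter (fun e' => e' ∣ x.1 * x.2 ∧ e' < x.2)).card

/-- The products of the pairs of rank `i`. -/
def EJ (A S : Finset ℕ) (i : ℕ) : Finset ℕ :=
  ((A ×ˢ S).filter (fun x => rkJ S x = i)).image (fun x => x.1 * x.2)

end Pool.Agent.Helper83.BD
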