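import Pool.Agent.Helper83.BD.Step

/-!
# BD-04: the claim for all `u < 1`

PROOF. `Cl 0`: `c = 0`, `δ = 1/2`, `B = 1`, `J = 0`, `R0 = 1`, `E = {1}`, `β = 1` (`1 ≤ R^(1/2)`; `1` has no prime factors, `Ω 1 = 0`; the inequality is an equality).
Claim: for all `j : ℕ` and `0 ≤ u < 1 - (1/2)^j` holds `Cl u`. `j = 0`: empty. `j + 1`: if `u = 0`: `Cl 0`. If `0 < u < 1/2`: `step 0 u`. If `u ≥ 1/2`: `2 u - 1 < u` and `2 u - 1 < 1 - (1/2)^j`; let
`u₂ = (2 u - 1 + min u (1 - (1/2)^j))/2`, so `0 ≤ 2 u - 1 < u₂ < min u (1 - (1/2)^j)`; `Cl u₂` by induction, `step u₂ u`. Every `u < 1` satisfies `u < 1 - (1/2)^j` for some `j`.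
-/

set_option autoImplicit false

namespace Pool.Agent.Helper83.BD

private theorem it_zero : Cl 0 := by
  refine ⟨0, 1 / 2, 1, le_refl _, one_pos, by norm_num, le_refl _, zero_le_one, 0, 1,
    fun R hR => ⟨{1}, fun _ => 1, ?_, ?_, ?_, ?_, ?_, ?_⟩⟩
  · intro e he
    rw [Finset.mem_singleton] at he
    rw [he, Real.rpow_zero]
    norm_num
  · intro e he
    rw [Finset.mem_singleton] at he
    rw [he, Nat.cast_one]
    exact Real.one_le_rpow (by exact_mod_cast hR) (by norm_num)
  · intro e he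
    rw [Finset.mem_singleton] at he
    rw [he]
    refine ⟨one_pos, ?_, ?_⟩
    · intro p hp
      rw [Nat.primeFactors_one] at hp
      exact absurd hp (Finset.notMem_empty p)
    · rw [ArithmeticFunction.cardFactors_one]
  · intro e
    exact zero_le_one
  · intro e
    exact le_refl _
  · intro w K _ F _
    rw [Finset.sum_singleton, zero_mul, zero_add, one_mul]
    rw [Finset.filter_true_of_mem fun m _ => one_dvd m]

private theorem it_ind (j : ℕ) : ∀ u : ℝ, 0 ≤ u → u < 1 - (1 / 2) ^ j → Cl u := by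
  induction j with
  | zero =>
    intro u h0 h1
    rw [pow_zero] at h1
    exact absurd h1 (by linarith)
  | succ j ih =>
    intro u h0 h1
    have hj : (0 : ℝ) < (1 / 2) ^ j := by positivity
    rw [pow_succ] at h1
    rcases eq_or_lt_of_le h0 with h | h
    · rw [← h]
      exact it_zero
    · rcases lt_or_ge u (1 / 2) with h2 | h2
      · exact step 0 u (le_refl _) h (by linarith) it_zero
      · have h3 : 2 * u - 1 < min u (1 - (1 / 2) ^ j) := by
          rw [lt_min_iff]
          constructor <;> nlinarith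
        have h4 : min u (1 - (1 / 2) ^ j) ≤ u := min_le_left _ _
        have h5 : min u (1 - (1 / 2) ^ j) ≤ 1 - (1 / 2 : ℝ) ^ j := min_le_right _ _
        exact step ((2 * u - 1 + min u (1 - (1 / 2) ^ j)) / 2) u (by linarith) (by linarith)
          (by linarith) (ih _ (by linarith) (by linarith))

theorem cl_all (u : ℝ) (h0 : 0 ≤ u) (h1 : u < 1) : Cl u := by
  obtain ⟨j, hj⟩ := exists_pow_lt_of_lt_one (sub_pos.2 h1) (by norm_num : (1 / 2 : ℝ) < 1)
  exact it_ind j u h0 (by linarith)

end Pool.Agent.Helper83.BD
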