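import Pool.Agent.Helper83.BD.Defs
import Pool.Agent.Helper8.DW.Smooth

/-!
# BD-09: the iterated inequality along the multiples of `d` in a window

MODEL: `tkd` in `Pool/Agent/Helper8/BC/TKc.lean` (BC-15), `mul_sum'` in `Pool/Agent/Helper8/DW/Dil.lean`.
PROOF. The multiples of `d` in the window are `n + h = d m`, `m ∈ Ioc u (u + K)`, `u = (n + y)/d`, `K = (n + y + H)/d - u = |mul n d y H| ≥ H/d ≥ H/(2 D)` (natural division); apply `hF.tk` to
`F m = c d (d * m - n) * b (Ω (d m))` (`‖F m‖ ≤ 1`; for `h ∈ mul n d y H`, `m = (n + h)/d`: `d m - n = h`); the `m` with `e ∣ m` are the multiples of `d e` (`e > 0` by `hF.ro`), i.e. `TC b c y H n d (d * e)`.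
-/

set_option autoImplicit false

namespace Pool.Agent.Helper83.BD

open Finset
open Pool.Agent.Helper8.DW (vv mul Per)
open Pool.Agent.Helper8.BC (sg Tc TC PU)

private theorem mul_sumJ (n d y H : ℕ) (hd : 1 ≤ d) (g : ℕ → ℂ) :
    ∑ h ∈ mul n d y H, g (n + h) = ∑ m ∈ Ioc ((n + y) / d) ((n + y + H) / d), g (d * m) := by
  refine Finset.sum_bij' (fun h _ => (n + h) / d) (fun m _ => d * m - n) ?_ ?_ ?_ ?_ ?_
  · intro h hh
    unfold mul at hh
    rw [Finset.mem_filter, Finset.mem_Ioc] at hh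
    obtain ⟨c, hc⟩ := hh.2
    rw [Finset.mem_Ioc, hc, Nat.mul_div_cancel_left _ hd]
    exact ⟨Nat.div_lt_of_lt_mul (by omega), (Nat.le_div_iff_mul_le hd).2 (by rw [mul_comm]; omega)⟩
  · intro m hm
    rw [Finset.mem_Ioc] at hm
    have h1 : n + y < d * m := by
      have := (Nat.div_lt_iff_lt_mul hd).1 hm.1
      rwa [mul_comm] at this
    have h2 : d * m ≤ n + y + H := by
      have := (Nat.le_div_iff_mul_le hd).1 hm.2
      rwa [mul_comm] at this
    unfold mul
    rw [Finset.mem_filter, Finset.mem_Ioc]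
    refine ⟨⟨by omega, by omega⟩, ?_⟩
    rw [show n + (d * m - n) = d * m by omega]
    exact Dvd.intro _ rfl
  · intro h hh
    unfold mul at hh
    rw [Finset.mem_filter, Finset.mem_Ioc] at hh
    obtain ⟨c, hc⟩ := hh.2
    simp only [hc, Nat.mul_div_cancel_left _ hd]
    omega
  · intro m hm
    rw [Finset.mem_Ioc] at hm
    have h1 : n + y < d * m := by
      have := (Nat.div_lt_iff_lt_mul hd).1 hm.1
      rwa [mul_comm] at this
    rw [show n + (d * m - n) = d * m by omega, Nat.mul_div_cancel_left _ hd]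
  · intro h hh
    unfold mul at hh
    rw [Finset.mem_filter, Finset.mem_Ioc] at hh
    rw [Nat.mul_div_cancel' hh.2]

private theorem card_mulJ (n d y H : ℕ) (hd : 1 ≤ d) :
    (mul n d y H).card = (n + y + H) / d - (n + y) / d := by
  have h1 := mul_sumJ n d y H hd (fun _ => 1)
  simp only [Finset.sum_const, nsmul_eq_mul, mul_one, Nat.card_Ioc] at h1
  exact_mod_cast h1

theorem famd {q : ℕ} {b : ℕ → ℝ} (hb : Per q b) (c : ℕ → ℕ → ℂ) (hc : ∀ d h, ‖c d h‖ ≤ 1) (u δ B c₀ : ℝ) (J : ℕ)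
    (E : Finset ℕ) (β : ℕ → ℝ) (D H : ℕ) (hD : 1 ≤ D) (hF : Fam u δ B c₀ J (H / (2 * D)) E β) (n d y : ℕ)
    (hDd : D ≤ d) (hd2 : d < 2 * D) :
    TC b c y H n d d ≤ c₀ * (mul n d y H).card + ∑ e ∈ E, β e * TC b c y H n d (d * e) := by
  have hd : 1 ≤ d := hD.trans hDd
  set F : ℕ → ℂ := fun x => c d (x - n) * ((b (ArithmeticFunction.cardFactors x) : ℝ) : ℂ) with hFdef
  set w : ℕ := (n + y) / d with hw0
  set v : ℕ := (n + y + H) / d with hv
  have huv : w + H / d ≤ v := Nat.div_add_div_le_add_div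
  have hK : H / (2 * D) ≤ H / d := Nat.div_le_div_left hd2.le hd
  have hw : w + (v - w) = v := Nat.add_sub_cancel' ((Nat.le_add_right _ _).trans huv)
  have hKv : H / (2 * D) ≤ v - w := Nat.le_sub_of_add_le (by
    rw [add_comm]
    exact (Nat.add_le_add_left hK w).trans huv)
  have hF1 : ∀ x, ‖F x‖ ≤ 1 := by
    intro x
    rw [hFdef]
    simp only
    rw [norm_mul, Complex.norm_real, Real.norm_eq_abs]
    calc ‖c d (x - n)‖ * |b (ArithmeticFunction.cardFactors x)| ≤ 1 * 1 :=
          mul_le_mul (hc _ _) (hb.le _) (abs_nonneg _) zero_le_one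
      _ = 1 := one_mul _
  have h1 := hF.tk w (v - w) hKv (fun m => F (d * m)) (fun m => hF1 _)
  rw [hw] at h1
  have hFh : ∀ h, F (n + h) = c d h * ((b (ArithmeticFunction.cardFactors (n + h)) : ℝ) : ℂ) := by
    intro h
    rw [hFdef]
    simp only [Nat.add_sub_cancel_left]
  have h2 : ∑ m ∈ Ioc w v, F (d * m) =
      ∑ h ∈ mul n d y H, c d h * ((b (ArithmeticFunction.cardFactors (n + h)) : ℝ) : ℂ) := by
    rw [← mul_sumJ n d y H hd F]
    exact Finset.sum_congr rfl fun h _ => hFh h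
  have h3 : ∀ e ∈ E, β e * ‖∑ m ∈ (Ioc w v).filter (fun m => e ∣ m), F (d * m)‖ =
      β e * TC b c y H n d (d * e) := by
    intro e _
    have h4 := mul_sumJ n d y H hd (fun x => if d * e ∣ x then F x else 0)
    rw [← Finset.sum_filter] at h4
    have h5 : (mul n d y H).filter (fun h => d * e ∣ n + h) = mul n (d * e) y H := by
      unfold mul
      rw [Finset.filter_filter]
      refine Finset.filter_congr fun h _ => ?_
      exact ⟨fun h6 => h6.2, fun h6 => ⟨(Dvd.intro _ rfl).trans h6, h6⟩⟩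
    rw [h5] at h4
    unfold TC
    rw [← Finset.sum_congr rfl fun h _ => hFh h, h4, Finset.sum_filter]
    congr 2
    refine Finset.sum_congr rfl fun m _ => ?_
    simp only [Nat.mul_dvd_mul_iff_left hd]
  rw [h2, Finset.sum_congr rfl h3] at h1
  have hcard : (mul n d y H).card = v - w := card_mulJ n d y H hd
  rw [hcard]
  exact h1

end Pool.Agent.Helper83.BD
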