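import Pool.Agent.Helper83.BD.BlocksJ
import Pool.Agent.Helper83.BD.WinJ
import Pool.Agent.Helper83.BD.Iter
import Pool.Agent.Helper8.BC.DilC

/-!
# BD-10: the main theorem in the dual form, all `u < 1`

MODEL: the proof of `dilc` (BC-18, `Pool/Agent/Helper8/BC/DilC.lean`).
PROOF. `cl_all ((1 + u)/2)` gives `c₂, δ, B, J, R1`. `c₀ = max c₂ (1/√(1 + log 2))`; it depends only on `u` and is `< 1`.
Given `a, b, ε`: `H1a, X1` from `Helper8.BC.dilc` with `u = 1/4` (`1/(2 * (1/4)) = 2`). CASE 1: `(log X)^k ≤ D H (H/D)^(1/4)`: `dilc`, and `1/√(1 + log 2) ≤ c₀`, `∑ GG ≥ 0`.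
CASE 2: `D H (H/D)^(1/4) < (log X)^k`: as `D ≥ 1`, `H/D ≥ 1`, `H ≤ (log X)^k`, so `H^2 ≤ (log X)^(2 k) ≤ X` for `X ≥ X0`. `R = H/(2 D)` (natural division): `2 D R ≤ H ≤ 2 D (R + 1) ≤ 4 D R`, `R ≥ R0` if `H ≥ H1 D`.
`C` = the constant of `sum_GG`; `N1 ≥ 1` with `6 C (3/√N1) ≤ ε/8` (so `6 C (3/√N) ≤ ε/8` for `N ≥ N1`); `blocksJ` with `u0 = u`, `u = (1 + u)/2`, `ε' = ε/(16 (B + 1))` gives `N`. `A = {d ∈ Ico D (2 D) | sg N d ≤ 1/√N}`.
(1) `d ∉ A`: `TC ≤ |mul| ≤ H/D + 1 ≤ 2 H/D`; `Helper8.BC.bad_card`: `≤ C X (3 D/√N)(2 H/D) ≤ (ε/8) H X`.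
(2) `d ∈ A`: the family `E, β` of `Cl` at `R`, and `famd`. First part: `c₂ ∑_n GG n ∑_(d ∈ A) |mul n d y H| ≤ c₂ (H + D) ∑ GG` (`∑_(D ≤ d < 2 D) (H/d + 1) ≤ H + D`), `D ≤ H/H1`: `≤ c₀ H ∑ GG + (C/H1) H X`.
Second part: `β e ≤ B`, `TC b c y H n d (d e) ≤ Tc b (Re c) y H n d (d e) + Tc b (Im c) y H n d (d e)`, `blocksJ` for `Re c` and `Im c`: `≤ B * 2 ε' H X ≤ (ε/8) H X`.
-/

set_option autoImplicit false

namespace Pool.Agent.Helper83.BD

open Finset Pool.Agent.Helper83.HLC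
open Pool.Agent.Helper8.DW (vv mul Per)
open Pool.Agent.Helper8.BC (sg Tc TC PU)

private theorem sum_mul_cardJ (D H n y : ℕ) (hD : 1 ≤ D) :
    ∑ d ∈ Ico D (2 * D), ((mul n d y H).card : ℝ) ≤ H + D := by
  have hDR : (0 : ℝ) < D := by exact_mod_cast hD
  calc ∑ d ∈ Ico D (2 * D), ((mul n d y H).card : ℝ) ≤ ∑ _d ∈ Ico D (2 * D), ((H : ℝ) / D + 1) := by
        refine sum_le_sum fun d hd => ?_
        have hd' := mem_Ico.1 hd
        refine (Pool.Agent.Helper8.DW.card_mul n d y H (by omega)).trans ?_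
        have h1 : (H : ℝ) / d ≤ H / D :=
          div_le_div_of_nonneg_left (Nat.cast_nonneg H) hDR (by exact_mod_cast hd'.1)
        linarith
    _ = H + D := by
      rw [sum_const, Nat.card_Ico, nsmul_eq_mul, show 2 * D - D = D by omega]
      field_simp

private theorem TC_le_cardJ {q : ℕ} {b : ℕ → ℝ} (hb : Per q b) (c : ℕ → ℕ → ℂ) (hc : ∀ d h, ‖c d h‖ ≤ 1)
    (y H n d e : ℕ) : TC b c y H n d e ≤ ((mul n e y H).card : ℝ) := by
  unfold TC
  refine (norm_sum_le _ _).trans ?_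
  calc ∑ h ∈ mul n e y H, ‖c d h * ((b (ArithmeticFunction.cardFactors (n + h)) : ℝ) : ℂ)‖ ≤
      ∑ _h ∈ mul n e y H, (1 : ℝ) := by
        refine sum_le_sum fun h _ => ?_
        rw [norm_mul, Complex.norm_real, Real.norm_eq_abs]
        exact mul_le_one₀ (hc d h) (abs_nonneg _) (hb.le _)
    _ = _ := by rw [sum_const, nsmul_eq_mul, mul_one]

private theorem TC_le_riJ (b : ℕ → ℝ) (c : ℕ → ℕ → ℂ) (y H n d e : ℕ) : TC b c y H n d e ≤
    Tc b (fun d h => (c d h).re) y H n d e + Tc b (fun d h => (c d h).im) y H n d e := by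
  unfold TC Tc
  refine (Complex.norm_le_abs_re_add_abs_im _).trans ?_
  rw [Complex.re_sum, Complex.im_sum]
  refine le_of_eq ?_
  congr 2
  · refine sum_congr rfl fun h _ => ?_
    rw [Complex.re_mul_ofReal]
  · refine sum_congr rfl fun h _ => ?_
    rw [Complex.im_mul_ofReal]

private theorem log_pow_le (k : ℕ) : ∃ X0 : ℕ, ∀ X : ℕ, X0 ≤ X → (Real.log X ^ k) ^ 2 ≤ (X : ℝ) := by
  have h1 : (fun x : ℝ => Real.log x ^ (k * 2)) =o[Filter.atTop] (id : ℝ → ℝ) :=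
    Real.isLittleO_pow_log_id_atTop
  have h2 := (h1.bound one_pos).natCast_atTop
  obtain ⟨X0, hX0⟩ := Filter.eventually_atTop.1 h2
  refine ⟨X0, fun X hX => ?_⟩
  have h3 := hX0 X hX
  simp only [id, Real.norm_eq_abs, one_mul, Nat.abs_cast] at h3
  rw [← pow_mul]
  exact (le_abs_self _).trans h3

/-- the second case: `H ^ 2 ≤ X` -/
private theorem case_two (u : ℝ) (hu : 0 < u) (hu1 : u < 1) (c₂ δ B : ℝ) (hc₂ : 0 ≤ c₂) (hc₂1 : c₂ < 1)
    (hδ : 0 < δ) (hδ1 : δ ≤ 1 / 2) (hB : 0 ≤ B) (J R1 : ℕ)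
    (hcl : ∀ R : ℕ, R1 ≤ R → ∃ (E : Finset ℕ) (β : ℕ → ℝ), Fam ((1 + u) / 2) δ B c₂ J R E β)
    {k : ℕ} (a : Fin k → ℕ) (ha : Function.Injective a) {q : ℕ} {b : ℕ → ℝ} (hb : Per q b) (ε : ℝ) (hε : 0 < ε) :
    ∃ H1 X0 : ℕ, ∀ X : ℕ, X0 ≤ X → ∀ D H y : ℕ, 1 ≤ D → H1 * D ≤ H → H ^ 2 ≤ X → y ≤ X →
      Real.log X ^ k ≤ D * H * ((H : ℝ) / D) ^ u → ∀ c : ℕ → ℕ → ℂ, (∀ d h, ‖c d h‖ ≤ 1) →
        ∑ n ∈ Icc 1 X, GG a n * ∑ d ∈ Ico D (2 * D), TC b c y H n d d ≤
          c₂ * H * ∑ n ∈ Icc 1 X, GG a n + ε * H * X := by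
  obtain ⟨C, hC, X1, hGG⟩ := sum_GG a ha
  set e1 : ℝ := ε / (4 * C) with he1
  have he0 : 0 < e1 := by positivity
  have heC : e1 * C = ε / 4 := by
    rw [he1]
    field_simp
  -- the natural numbers `N1`, `N`
  obtain ⟨N1, hN1⟩ := exists_nat_ge ((48 * C / ε) ^ 2 + 1)
  obtain ⟨N, hN1N, Rb, Xb, hblocks⟩ := blocksJ a ha hb u ((1 + u) / 2) δ hu (by linarith) hu1 hδ hδ1 J N1
    (ε / (16 * (B + 1))) (by positivity)
  obtain ⟨H2, hH2⟩ := exists_nat_ge (1 / e1)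
  have hNR : (48 * C / ε) ^ 2 + 1 ≤ (N : ℝ) := hN1.trans (by exact_mod_cast hN1N)
  have hNpos : (0 : ℝ) < N := by
    have := sq_nonneg (48 * C / ε)
    linarith
  have hN0 : 1 ≤ N := by exact_mod_cast hNpos
  have hsN : 0 < √(N : ℝ) := Real.sqrt_pos.2 hNpos
  have hbadc : C * (6 / √(N : ℝ)) ≤ ε / 8 := by
    have h1 : 48 * C / ε ≤ √(N : ℝ) := Real.le_sqrt_of_sq_le (by linarith)
    rw [div_le_iff₀ hε] at h1
    rw [mul_div_assoc', div_le_iff₀ hsN]
    linarith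
  refine ⟨2 * (Rb + R1 + 1) + H2, max X1 Xb, fun X hX D H y hD hHD hHHX hyX hlogX c hc => ?_⟩
  have hsum := hGG X ((le_max_left _ _).trans hX)
  set G : ℝ := ∑ n ∈ Icc 1 X, GG a n with hG
  have hG0 : 0 ≤ G := Finset.sum_nonneg fun n _ => GG_nonneg a n
  have hDR : (0 : ℝ) < D := by exact_mod_cast hD
  set R : ℕ := H / (2 * D) with hR
  have hRge : Rb + R1 + 1 ≤ R := by
    rw [hR, Nat.le_div_iff_mul_le (by omega)]
    calc (Rb + R1 + 1) * (2 * D) = 2 * (Rb + R1 + 1) * D := by ring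
      _ ≤ (2 * (Rb + R1 + 1) + H2) * D := Nat.mul_le_mul_right _ (Nat.le_add_right _ _)
      _ ≤ H := hHD
  have hRR1 : R1 ≤ R := by omega
  have h2DR : 2 * D * R ≤ H := Nat.mul_div_le _ _
  have hH4 : H ≤ 4 * D * R := by
    have h1 : H < 2 * D * (R + 1) := Nat.lt_mul_div_succ H (show 0 < 2 * D by omega)
    calc H ≤ 2 * D * (R + 1) := h1.le
      _ ≤ 2 * D * (R + R) := Nat.mul_le_mul_left _ (by omega)
      _ = 4 * D * R := by ring
  have hDH : D ≤ H := by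
    calc D ≤ (2 * (Rb + R1 + 1) + H2) * D := Nat.le_mul_of_pos_left _ (by omega)
      _ ≤ H := hHD
  have hHR : (0 : ℝ) < H := by exact_mod_cast lt_of_lt_of_le hD hDH
  have hDe : (D : ℝ) ≤ e1 * H := by
    have h1 : ((2 * (Rb + R1 + 1) + H2 : ℕ) : ℝ) * D ≤ H := by exact_mod_cast hHD
    have h2 : (H2 : ℝ) * D ≤ H := by
      refine le_trans (mul_le_mul_of_nonneg_right ?_ hDR.le) h1
      exact_mod_cast Nat.le_add_left _ _
    have h3 : 1 / e1 * D ≤ H := (mul_le_mul_of_nonneg_right hH2 hDR.le).trans h2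
    rw [one_div, inv_mul_le_iff₀ he0] at h3
    exact h3
  obtain ⟨E, β, hFam⟩ := hcl R hRR1
  set A : Finset ℕ := (Ico D (2 * D)).filter (fun d => sg N d ≤ 1 / √N) with hA
  have hAsub : A ⊆ Ico D (2 * D) := Finset.filter_subset _ _
  have hXn : (0 : ℝ) ≤ X := Nat.cast_nonneg X
  -- the second part of `famd`
  have hsecond : ∑ n ∈ Icc 1 X, GG a n * ∑ d ∈ A, ∑ e ∈ E, TC b c y H n d (d * e) ≤
      ε / (8 * (B + 1)) * H * X := by
    have h1 := hblocks X ((le_max_right _ _).trans hX) D H R y hD (by omega) h2DR hH4 hHHX hyX hlogX A hAsub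
      (fun d hd => (Finset.mem_filter.1 hd).2) E (fun e he => ⟨hFam.lo e he, hFam.hi e he, hFam.ro e he⟩)
      (fun d h => (c d h).re) (fun d h => (Complex.abs_re_le_norm _).trans (hc d h))
    have h2 := hblocks X ((le_max_right _ _).trans hX) D H R y hD (by omega) h2DR hH4 hHHX hyX hlogX A hAsub
      (fun d hd => (Finset.mem_filter.1 hd).2) E (fun e he => ⟨hFam.lo e he, hFam.hi e he, hFam.ro e he⟩)
      (fun d h => (c d h).im) (fun d h => (Complex.abs_im_le_norm _).trans (hc d h))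
    have h3 : ∑ n ∈ Icc 1 X, GG a n * ∑ d ∈ A, ∑ e ∈ E, TC b c y H n d (d * e) ≤
        ∑ n ∈ Icc 1 X, GG a n * ∑ d ∈ A, ∑ e ∈ E, Tc b (fun d h => (c d h).re) y H n d (d * e) +
        ∑ n ∈ Icc 1 X, GG a n * ∑ d ∈ A, ∑ e ∈ E, Tc b (fun d h => (c d h).im) y H n d (d * e) := by
      rw [← Finset.sum_add_distrib]
      refine Finset.sum_le_sum fun n _ => ?_
      rw [← mul_add]
      refine mul_le_mul_of_nonneg_left ?_ (GG_nonneg a n)
      rw [← Finset.sum_add_distrib]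
      refine Finset.sum_le_sum fun d _ => ?_
      rw [← Finset.sum_add_distrib]
      exact Finset.sum_le_sum fun e _ => TC_le_riJ b c y H n d (d * e)
    have h4 : ε / (16 * (B + 1)) * H * X + ε / (16 * (B + 1)) * H * X = ε / (8 * (B + 1)) * H * X := by
      field_simp
      ring
    linarith
  have hfirst : ∀ n, ∑ d ∈ A, c₂ * ((mul n d y H).card : ℝ) ≤ c₂ * H + e1 * H := by
    intro n
    rw [← Finset.mul_sum]
    have h1 : ∑ d ∈ A, ((mul n d y H).card : ℝ) ≤ H + D :=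
      (Finset.sum_le_sum_of_subset_of_nonneg hAsub fun _ _ _ => Nat.cast_nonneg _).trans (sum_mul_cardJ D H n y hD)
    calc c₂ * ∑ d ∈ A, ((mul n d y H).card : ℝ) ≤ c₂ * (H + D) := mul_le_mul_of_nonneg_left h1 hc₂
      _ = c₂ * H + c₂ * D := by ring
      _ ≤ c₂ * H + e1 * H := by
          refine add_le_add le_rfl ?_
          calc c₂ * (D : ℝ) ≤ 1 * D := mul_le_mul_of_nonneg_right hc₂1.le hDR.le
            _ = D := one_mul _
            _ ≤ e1 * H := hDe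
  have hTC0 : ∀ n d e, 0 ≤ TC b c y H n d e := by
    intro n d e
    unfold TC
    exact norm_nonneg _
  have hgood : ∑ n ∈ Icc 1 X, GG a n * ∑ d ∈ A, TC b c y H n d d ≤
      (c₂ * H + e1 * H) * G + ε / 8 * H * X := by
    calc ∑ n ∈ Icc 1 X, GG a n * ∑ d ∈ A, TC b c y H n d d
        ≤ ∑ n ∈ Icc 1 X, GG a n * ((c₂ * H + e1 * H) +
            B * ∑ d ∈ A, ∑ e ∈ E, TC b c y H n d (d * e)) := by
          refine Finset.sum_le_sum fun n _ => mul_le_mul_of_nonneg_left ?_ (GG_nonneg a n)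
          calc ∑ d ∈ A, TC b c y H n d d ≤ ∑ d ∈ A, (c₂ * ((mul n d y H).card : ℝ) +
                B * ∑ e ∈ E, TC b c y H n d (d * e)) := by
                refine Finset.sum_le_sum fun d hd => ?_
                have h1 := Finset.mem_Ico.1 (hAsub hd)
                refine (famd hb c hc ((1 + u) / 2) δ B c₂ J E β D H hD hFam n d y h1.1 h1.2).trans ?_
                refine add_le_add le_rfl ?_
                rw [Finset.mul_sum]
                exact Finset.sum_le_sum fun e _ => mul_le_mul_of_nonneg_right (hFam.le e) (hTC0 _ _ _)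
            _ ≤ _ := by
                rw [Finset.sum_add_distrib]
                have h2 : ∑ x ∈ A, B * ∑ e ∈ E, TC b c y H n x (x * e) =
                    B * ∑ d ∈ A, ∑ e ∈ E, TC b c y H n d (d * e) := (Finset.mul_sum _ _ _).symm
                rw [h2]
                exact add_le_add (hfirst n) le_rfl
      _ = (c₂ * H + e1 * H) * G +
          B * (∑ n ∈ Icc 1 X, GG a n * ∑ d ∈ A, ∑ e ∈ E, TC b c y H n d (d * e)) := by
          rw [hG, Finset.mul_sum, Finset.mul_sum, ← Finset.sum_add_distrib]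
          exact Finset.sum_congr rfl fun n _ => by ring
      _ ≤ (c₂ * H + e1 * H) * G + ε / 8 * H * X := by
          refine add_le_add le_rfl ?_
          refine (mul_le_mul_of_nonneg_left hsecond hB).trans ?_
          have h1 : B * (ε / (8 * (B + 1)) * H * X) = (B / (B + 1)) * (ε / 8 * H * X) := by
            field_simp
          rw [h1]
          have h2 : B / (B + 1) ≤ 1 := by
            rw [div_le_one (by linarith)]
            linarith
          calc (B / (B + 1)) * (ε / 8 * H * X) ≤ 1 * (ε / 8 * H * X) :=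
                mul_le_mul_of_nonneg_right h2 (by positivity)
            _ = _ := one_mul _
  -- the bad integers
  have hbad := Pool.Agent.Helper8.BC.bad_card N D hN0 hD
  have hbadsum : ∑ n ∈ Icc 1 X, GG a n * ∑ d ∈ (Ico D (2 * D)).filter (fun d => ¬ sg N d ≤ 1 / √N), TC b c y H n d d ≤
      ε / 8 * H * X := by
    calc ∑ n ∈ Icc 1 X, GG a n * ∑ d ∈ (Ico D (2 * D)).filter (fun d => ¬ sg N d ≤ 1 / √N), TC b c y H n d d
        ≤ ∑ n ∈ Icc 1 X, GG a n * (3 * D / √N * (2 * H / D)) := by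
          refine Finset.sum_le_sum fun n _ => mul_le_mul_of_nonneg_left ?_ (GG_nonneg a n)
          calc ∑ d ∈ (Ico D (2 * D)).filter (fun d => ¬ sg N d ≤ 1 / √N), TC b c y H n d d
              ≤ ∑ _d ∈ (Ico D (2 * D)).filter (fun d => ¬ sg N d ≤ 1 / √N), 2 * (H : ℝ) / D := by
                refine Finset.sum_le_sum fun d hd => ?_
                have hd' := Finset.mem_Ico.1 (Finset.mem_filter.1 hd).1
                refine (TC_le_cardJ hb c hc y H n d d).trans ?_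
                refine (Pool.Agent.Helper8.DW.card_mul n d y H (by omega)).trans ?_
                have h1 : (H : ℝ) / d ≤ H / D :=
                  div_le_div_of_nonneg_left (Nat.cast_nonneg H) hDR (by exact_mod_cast hd'.1)
                have h2 : (1 : ℝ) ≤ H / D := by
                  rw [le_div_iff₀ hDR, one_mul]
                  exact_mod_cast hDH
                have h3 : 2 * (H : ℝ) / D = H / D + H / D := by ring
                linarith
            _ = (((Ico D (2 * D)).filter (fun d => ¬ sg N d ≤ 1 / √N)).card : ℝ) * (2 * H / D) := by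
                rw [Finset.sum_const, nsmul_eq_mul]
            _ ≤ 3 * D / √N * (2 * H / D) := mul_le_mul_of_nonneg_right hbad (by positivity)
      _ = G * (3 * D / √N * (2 * H / D)) := by rw [hG, Finset.sum_mul]
      _ ≤ (C * X) * (3 * D / √N * (2 * H / D)) := mul_le_mul_of_nonneg_right hsum (by positivity)
      _ = (C * (6 / √N)) * (H * X) := by
          field_simp
          ring
      _ ≤ ε / 8 * (H * X) := mul_le_mul_of_nonneg_right hbadc (by positivity)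
      _ = _ := by ring
  have hsplit : ∑ n ∈ Icc 1 X, GG a n * ∑ d ∈ Ico D (2 * D), TC b c y H n d d =
      ∑ n ∈ Icc 1 X, GG a n * ∑ d ∈ A, TC b c y H n d d +
        ∑ n ∈ Icc 1 X, GG a n * ∑ d ∈ (Ico D (2 * D)).filter (fun d => ¬ sg N d ≤ 1 / √N), TC b c y H n d d := by
    rw [← Finset.sum_add_distrib]
    refine Finset.sum_congr rfl fun n _ => ?_
    rw [← mul_add, hA, Finset.sum_filter_add_sum_filter_not]
  rw [hsplit]
  have hfin : e1 * H * G ≤ ε / 4 * H * X := by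
    calc e1 * H * G ≤ e1 * H * (C * X) := mul_le_mul_of_nonneg_left hsum (by positivity)
      _ = (e1 * C) * (H * X) := by ring
      _ = ε / 4 * (H * X) := by rw [heC]
      _ = _ := by ring
  have hpos : 0 ≤ ε * H * X := by positivity
  have hexp : (c₂ * H + e1 * H) * G = c₂ * H * G + e1 * H * G := by ring
  linarith

theorem dilJ (u : ℝ) (hu : 0 < u) (hu1 : u < 1) : ∃ c₀ : ℝ, 0 < c₀ ∧ c₀ < 1 ∧
    ∀ {k : ℕ} (a : Fin k → ℕ), Function.Injective a → ∀ {q : ℕ} {b : ℕ → ℝ}, Per q b → ∀ ε : ℝ, 0 < ε →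
      ∃ H1 X0 : ℕ, ∀ X : ℕ, X0 ≤ X → ∀ D H y : ℕ, 1 ≤ D → H1 * D ≤ H → D * H ≤ X → y ≤ X →
        Real.log X ^ k ≤ D * H * ((H : ℝ) / D) ^ u → ∀ c : ℕ → ℕ → ℂ, (∀ d h, ‖c d h‖ ≤ 1) →
          ∑ n ∈ Icc 1 X, GG a n * ∑ d ∈ Ico D (2 * D), TC b c y H n d d ≤
            c₀ * H * ∑ n ∈ Icc 1 X, GG a n + ε * H * X := by
  obtain ⟨c₂, δ, B, hc₂, hc₂1, hδ, hδ1, hB, J, R1, hcl⟩ := cl_all ((1 + u) / 2) (by linarith) (by linarith)
  set s : ℝ := 1 / √(1 + Real.log 2) with hs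
  have hl2 : 0 < Real.log 2 := Real.log_pos (by norm_num)
  have hs0 : 0 < s := by
    rw [hs]
    positivity
  have hs1 : s < 1 := by
    rw [hs, div_lt_one (Real.sqrt_pos.2 (by linarith))]
    exact Real.lt_sqrt_of_sq_lt (by linarith)
  refine ⟨max c₂ s, lt_of_lt_of_le hs0 (le_max_right _ _), max_lt hc₂1 hs1, ?_⟩
  intro k a ha q b hb ε hε
  obtain ⟨H1a, X1, h1⟩ := Pool.Agent.Helper8.BC.dilc a ha hb (1 / 4) (by norm_num) (by norm_num) ε hε
  obtain ⟨H1b, X2, h2⟩ := case_two u hu hu1 c₂ δ B hc₂ hc₂1 hδ hδ1 hB J R1 hcl a ha hb ε hε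
  obtain ⟨X3, h3⟩ := log_pow_le k
  refine ⟨H1a + H1b + 1, max X1 (max X2 X3), fun X hX D H y hD hHD hDHX hyX hlogX c hc => ?_⟩
  have hXX1 : X1 ≤ X := (le_max_left _ _).trans hX
  have hXX2 : X2 ≤ X := (le_max_left _ _).trans ((le_max_right _ _).trans hX)
  have hXX3 : X3 ≤ X := (le_max_right _ _).trans ((le_max_right _ _).trans hX)
  have hG0 : 0 ≤ ∑ n ∈ Icc 1 X, GG a n := Finset.sum_nonneg fun n _ => GG_nonneg a n
  have hDR : (0 : ℝ) < D := by exact_mod_cast hD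
  have hDR1 : (1 : ℝ) ≤ D := by exact_mod_cast hD
  have hHDa : H1a * D ≤ H := le_trans (Nat.mul_le_mul_right _ (by omega)) hHD
  have hHDb : H1b * D ≤ H := le_trans (Nat.mul_le_mul_right _ (by omega)) hHD
  have hDH : D ≤ H := by
    calc D ≤ (H1a + H1b + 1) * D := Nat.le_mul_of_pos_left _ (by omega)
      _ ≤ H := hHD
  have hHR : (0 : ℝ) < H := by exact_mod_cast lt_of_lt_of_le hD hDH
  by_cases hcase : Real.log X ^ k ≤ D * H * ((H : ℝ) / D) ^ (1 / 4 : ℝ)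
  · have h4 := h1 X hXX1 D H y hD hHDa hDHX hyX hcase c hc
    rw [show (1 : ℝ) / (2 * (1 / 4)) = 2 by norm_num, ← hs] at h4
    refine h4.trans (add_le_add ?_ le_rfl)
    exact mul_le_mul_of_nonneg_right (mul_le_mul_of_nonneg_right (le_max_right _ _) hHR.le) hG0
  · rw [not_le] at hcase
    have h5 : (H : ℝ) ≤ Real.log X ^ k := by
      have h6 : (1 : ℝ) ≤ (H : ℝ) / D := by
        rw [le_div_iff₀ hDR, one_mul]
        exact_mod_cast hDH
      have h7 : (1 : ℝ) ≤ ((H : ℝ) / D) ^ (1 / 4 : ℝ) := Real.one_le_rpow h6 (by norm_num)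
      have h8 : (H : ℝ) ≤ D * H * ((H : ℝ) / D) ^ (1 / 4 : ℝ) := by
        calc (H : ℝ) = 1 * H * 1 := by ring
          _ ≤ D * H * ((H : ℝ) / D) ^ (1 / 4 : ℝ) :=
            mul_le_mul (mul_le_mul_of_nonneg_right hDR1 hHR.le) h7 zero_le_one (by positivity)
      linarith
    have h9 : H ^ 2 ≤ X := by
      have h10 : (H : ℝ) ^ 2 ≤ X := (pow_le_pow_left₀ hHR.le h5 2).trans (h3 X hXX3)
      exact_mod_cast h10
    have h4 := h2 X hXX2 D H y hD hHDb h9 hyX hlogX c hc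
    refine h4.trans (add_le_add ?_ le_rfl)
    exact mul_le_mul_of_nonneg_right (mul_le_mul_of_nonneg_right (le_max_left _ _) hHR.le) hG0

end Pool.Agent.Helper83.BD
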