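import Pool.Agent.Helper83.BD.RankJ
import Pool.Agent.Helper8.BC.RankC

/-!
# BD-06: products `d e` with coefficients

MODEL: `pairs_boundc` in `Pool/Agent/Helper8/BC/RankC.lean` (BC-14) and `pairs_bound` in `Pool/Agent/Helper8/DW/Rank.lean`.
PROOF. `C` = the constant of `Helper83.HLC.sum_GG`, `I ≥ 16 * 2^J C/ε`, `Helper8.BC.set_boundc` with `ε/(4 I)`, `max N1 1` (so `N ≥ 1`). Split the pairs `(d, e) ∈ A ×ˢ S` according to the rank (`split_rankJ`).
Rank `i < I`: `(d, e) ↦ d e` is injective on the pairs of rank `i` (`rkJ_inj`), with image `EJ A S i`; let `c_i N h = c d h` if `N = d e` for such a pair (choose it; it is unique), and `0` otherwise; then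
`Tc b c y H n d (d * e) = Tc b c_i y H n (d * e) (d * e)` (`Tc b c y H n d e` uses `c` only as `c d h`). Apply `set_boundc` to `EJ A S i ∩ [B D, 2 B D)` and `EJ A S i ∩ [2 B D, 4 B D)` with `Nn = D |S|`
(`|EJ A S i| ≤ |A| |S| ≤ D |S|`), coefficient `c_i`: each at most `ε/(4 I) (D |S|/(B D)) H X`. Condition on `N = d e`: the prime factors of `d e` are those of `d` and of `e`, the ones of `e` are at least `w` and there are at most
`J` of them, so `sg N (d e) ≤ sg N d + J/w ≤ 2/√N` (`J √N ≤ w`).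
The pairs of rank `≥ I`: at most `4 * 2^J D |S|/I` (`card_rankJ`), each `Tc ≤ 2 H/(B D)` (`Helper8.BC.Tc_le`), `∑ GG ≤ C X`.
-/

set_option autoImplicit false

namespace Pool.Agent.Helper83.BD

open Finset Pool.Agent.Helper83.HLC
open Pool.Agent.Helper8.DW (vv mul Per)
open Pool.Agent.Helper8.BC (sg Tc TC PU)

/-- The first component of a pair of rank `i` with product `e`. -/
private noncomputable def pickJ (A S : Finset ℕ) (i e : ℕ) : ℕ :=
  open Classical in if h : ∃ x ∈ (A ×ˢ S).filter (fun x => rkJ S x = i), x.1 * x.2 = e then h.choose.1 else 0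

private theorem pickJ_eq (A S : Finset ℕ) (hS : ∀ e ∈ S, 0 < e) (i : ℕ) (x : ℕ × ℕ)
    (hx : x ∈ (A ×ˢ S).filter (fun x => rkJ S x = i)) : pickJ A S i (x.1 * x.2) = x.1 := by
  have h : ∃ y ∈ (A ×ˢ S).filter (fun y => rkJ S y = i), y.1 * y.2 = x.1 * x.2 := ⟨x, hx, rfl⟩
  unfold pickJ
  rw [dif_pos h]
  have h1 := h.choose_spec
  have h2 := Finset.mem_filter.1 h1.1
  have h3 := Finset.mem_filter.1 hx
  rw [rkJ_inj (Finset.mem_product.1 h2.1).2 (Finset.mem_product.1 h3.1).2 (hS _ (Finset.mem_product.1 h2.1).2)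
    h1.2 (h2.2.trans h3.2.symm)]

private theorem sum_EJ (A S : Finset ℕ) (hS : ∀ e ∈ S, 0 < e) (i : ℕ) (b : ℕ → ℝ) (c : ℕ → ℕ → ℝ) (y H n : ℕ) :
    ∑ x ∈ (A ×ˢ S).filter (fun x => rkJ S x = i), Tc b c y H n x.1 (x.1 * x.2) =
      ∑ e ∈ EJ A S i, Tc b (fun e h => c (pickJ A S i e) h) y H n e e := by
  unfold EJ
  rw [Finset.sum_image]
  · refine Finset.sum_congr rfl fun x hx => ?_
    unfold Tc
    simp only [pickJ_eq A S hS i x hx]
  · intro x hx y hy h
    have hx' := Finset.mem_filter.1 hx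
    have hy' := Finset.mem_filter.1 hy
    exact rkJ_inj (Finset.mem_product.1 hx'.1).2 (Finset.mem_product.1 hy'.1).2
      (hS _ (Finset.mem_product.1 hx'.1).2) h (hx'.2.trans hy'.2.symm)

private theorem sg_rough (N J e : ℕ) (w : ℝ) (hw : 0 < w) (he : Rough J w e) : sg N e ≤ J / w := by
  unfold sg
  have h1 : ∀ p ∈ e.primeFactors.filter (fun p => N < p), (1 : ℝ) / p ≤ 1 / w := by
    intro p hp
    exact one_div_le_one_div_of_le hw (he.2.1 p (Finset.mem_filter.1 hp).1)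
  have h2 : (e.primeFactors.filter (fun p => N < p)).card ≤ J := by
    refine (Finset.card_filter_le _ _).trans (le_trans ?_ he.2.2)
    rw [ArithmeticFunction.cardFactors_apply]
    exact List.toFinset_card_le _
  calc ∑ p ∈ e.primeFactors.filter (fun p => N < p), (1 : ℝ) / p
      ≤ ∑ _p ∈ e.primeFactors.filter (fun p => N < p), 1 / w := Finset.sum_le_sum h1
    _ = ((e.primeFactors.filter (fun p => N < p)).card : ℝ) * (1 / w) := by
        rw [Finset.sum_const, nsmul_eq_mul]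
    _ ≤ J * (1 / w) := mul_le_mul_of_nonneg_right (by exact_mod_cast h2) (by positivity)
    _ = J / w := by ring

private theorem sg_mul_leJ (N d e : ℕ) (hd : d ≠ 0) (he : e ≠ 0) : sg N (d * e) ≤ sg N d + sg N e := by
  unfold sg
  rw [Nat.primeFactors_mul hd he, Finset.filter_union]
  have h1 := Finset.sum_union_inter (s₁ := d.primeFactors.filter (fun p => N < p))
    (s₂ := e.primeFactors.filter (fun p => N < p)) (f := fun p : ℕ => (1 : ℝ) / p)
  have h2 : 0 ≤ ∑ x ∈ d.primeFactors.filter (fun p => N < p) ∩ e.primeFactors.filter (fun p => N < p), (1 : ℝ) / x :=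
    Finset.sum_nonneg fun _ _ => by positivity
  linarith

theorem pairs_boundJ {k : ℕ} (a : Fin k → ℕ) (ha : Function.Injective a) {q : ℕ} {b : ℕ → ℝ} (hb : Per q b) (J N1 : ℕ)
    (ε : ℝ) (hε : 0 < ε) : ∃ N : ℕ, N1 ≤ N ∧ ∃ K : ℝ, 0 < K ∧ ∃ H0 X0 : ℕ, ∀ X : ℕ, X0 ≤ X → ∀ D B H y : ℕ, 1 ≤ D →
      1 ≤ B → (2 * (B * D)) ^ 2 ≤ X → H0 * (2 * (B * D)) ≤ H → 2 * (B * D) ≤ H → H ≤ X → y ≤ X →
        ∀ A ⊆ Ico D (2 * D), (∀ d ∈ A, sg N d ≤ 1 / √N) →
          ∀ S ⊆ Ico B (2 * B), ∀ w : ℝ, 0 < w → J * √N ≤ w → (∀ e ∈ S, Rough J w e) →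
            K * Real.log X ^ k ≤ D * S.card * H → ∀ c : ℕ → ℕ → ℝ, (∀ d h, |c d h| ≤ 1) →
              ∑ n ∈ Icc 1 X, GG a n * ∑ d ∈ A, ∑ e ∈ S, Tc b c y H n d (d * e) ≤ ε * (S.card / B) * H * X := by
  obtain ⟨C, hC, X1, hGG⟩ := sum_GG a ha
  obtain ⟨I, hI⟩ := exists_nat_ge (16 * 2 ^ J * C / ε)
  have hI0 : (0 : ℝ) < I := lt_of_lt_of_le (by positivity) hI
  obtain ⟨N, hN1, K, hK, H0, X2, hF⟩ := Pool.Agent.Helper8.BC.set_boundc a ha hb (max N1 1) (ε / (4 * I)) (by positivity)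
  have hN1' : 1 ≤ N := (le_max_right _ _).trans hN1
  have hsN : 0 < √(N : ℝ) := Real.sqrt_pos.2 (by exact_mod_cast hN1')
  refine ⟨N, (le_max_left _ _).trans hN1, K, hK, H0, max X1 X2,
    fun X hX D B H y hD hB hDX hHD hDH hHX hyX A hA hφ S hS w hw hJw hSR hlog c hc => ?_⟩
  have hSp : ∀ e ∈ S, 0 < e := fun e he => (hSR e he).1
  have hJw1 : (J : ℝ) / w ≤ 1 / √N := by
    rw [div_le_div_iff₀ hw hsN, one_mul]
    exact hJw
  have hD0 : (0 : ℝ) < D := by exact_mod_cast hD
  have hB0 : (0 : ℝ) < B := by exact_mod_cast hB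
  have hBD : 1 ≤ B * D := Nat.mul_pos hB hD
  have hsum := hGG X ((le_max_left _ _).trans hX)
  have hAcard : (A.card : ℝ) ≤ D := by
    have h1 := Finset.card_le_card hA
    rw [Nat.card_Ico] at h1
    have h2 : A.card ≤ D := by omega
    exact_mod_cast h2
  -- the sets `Ei`
  have hEmem : ∀ i, ∀ e ∈ EJ A S i, B * D ≤ e ∧ e < 2 * (2 * (B * D)) ∧ sg N e ≤ 2 / √N := by
    intro i e he
    unfold EJ at he
    rw [Finset.mem_image] at he
    obtain ⟨x, hx, rfl⟩ := he
    have hx1 := Finset.mem_product.1 (Finset.mem_filter.1 hx).1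
    have h1 := Finset.mem_Ico.1 (hA hx1.1)
    have h2 := Finset.mem_Ico.1 (hS hx1.2)
    refine ⟨?_, ?_, ?_⟩
    · rw [mul_comm B D]
      exact Nat.mul_le_mul h1.1 h2.1
    · calc x.1 * x.2 < (2 * D) * (2 * B) := Nat.mul_lt_mul'' h1.2 h2.2
        _ = _ := by ring
    · have h3 := sg_mul_leJ N x.1 x.2 (by omega) (by omega)
      have h4 := hφ _ hx1.1
      have h5 := sg_rough N J x.2 w hw (hSR _ hx1.2)
      calc sg N (x.1 * x.2) ≤ 1 / √N + 1 / √N := by linarith
        _ = 2 / √N := by ring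
  have hEcard : ∀ i, ((EJ A S i).card : ℝ) ≤ D * S.card := by
    intro i
    have h1 : (EJ A S i).card ≤ A.card * S.card := by
      unfold EJ
      refine Finset.card_image_le.trans ((Finset.card_filter_le _ _).trans (le_of_eq ?_))
      rw [Finset.card_product]
    calc ((EJ A S i).card : ℝ) ≤ (A.card : ℝ) * S.card := by exact_mod_cast h1
      _ ≤ D * S.card := mul_le_mul_of_nonneg_right hAcard (Nat.cast_nonneg _)
  have hE : ∀ i, ∑ n ∈ Icc 1 X, GG a n * ∑ e ∈ EJ A S i, Tc b (fun e h => c (pickJ A S i e) h) y H n e e ≤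
      ε / (2 * I) * (S.card / B) * H * X := by
    intro i
    have hc' : ∀ d h, |(fun e h => c (pickJ A S i e) h) d h| ≤ 1 := fun d h => hc _ _
    have h1 := hF X ((le_max_right _ _).trans hX) (B * D) H y hBD
      (le_trans (Nat.pow_le_pow_left (by omega) 2) hDX) (le_trans (Nat.mul_le_mul_left _ (by omega)) hHD)
      (by omega) hHX hyX ((EJ A S i).filter (fun e => e < 2 * (B * D)))
      (fun e he => by
        rw [Finset.mem_filter] at he
        exact Finset.mem_Ico.2 ⟨(hEmem i e he.1).1, he.2⟩)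
      (fun e he => (hEmem i e (Finset.mem_filter.1 he).1).2.2) (D * S.card)
      (le_trans (by exact_mod_cast Finset.card_filter_le _ _) (hEcard i)) hlog _ hc'
    have h2 := hF X ((le_max_right _ _).trans hX) (2 * (B * D)) H y (by omega) hDX hHD hDH hHX hyX
      ((EJ A S i).filter (fun e => ¬ e < 2 * (B * D)))
      (fun e he => by
        rw [Finset.mem_filter, not_lt] at he
        exact Finset.mem_Ico.2 ⟨he.2, (hEmem i e he.1).2.1⟩)
      (fun e he => (hEmem i e (Finset.mem_filter.1 he).1).2.2) (D * S.card)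
      (le_trans (by exact_mod_cast Finset.card_filter_le _ _) (hEcard i)) hlog _ hc'
    have h3 : ∑ n ∈ Icc 1 X, GG a n * ∑ e ∈ EJ A S i, Tc b (fun e h => c (pickJ A S i e) h) y H n e e =
        ∑ n ∈ Icc 1 X, GG a n * ∑ e ∈ (EJ A S i).filter (fun e => e < 2 * (B * D)),
            Tc b (fun e h => c (pickJ A S i e) h) y H n e e +
          ∑ n ∈ Icc 1 X, GG a n * ∑ e ∈ (EJ A S i).filter (fun e => ¬ e < 2 * (B * D)),
            Tc b (fun e h => c (pickJ A S i e) h) y H n e e := by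
      rw [← Finset.sum_add_distrib]
      refine Finset.sum_congr rfl fun n _ => ?_
      rw [← mul_add, Finset.sum_filter_add_sum_filter_not]
    rw [h3]
    have h4 : (D : ℝ) * S.card / ((B * D : ℕ) : ℝ) = S.card / B := by
      push_cast
      field_simp
    have h5 : (D : ℝ) * S.card / ((2 * (B * D) : ℕ) : ℝ) ≤ S.card / B := by
      rw [← h4]
      refine div_le_div_of_nonneg_left (by positivity) (by exact_mod_cast hBD) ?_
      push_cast
      have h6 : (0 : ℝ) ≤ B * D := by positivity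
      linarith
    rw [h4] at h1
    have h7 : ε / (4 * I) * (D * S.card / ((2 * (B * D) : ℕ) : ℝ)) * H * X ≤ ε / (4 * I) * (S.card / B) * H * X :=
      mul_le_mul_of_nonneg_right (mul_le_mul_of_nonneg_right (mul_le_mul_of_nonneg_left h5 (by positivity))
        (Nat.cast_nonneg _)) (Nat.cast_nonneg _)
    calc _ ≤ ε / (4 * I) * (S.card / B) * H * X + ε / (4 * I) * (S.card / B) * H * X :=
          add_le_add h1 (h2.trans h7)
      _ = ε / (2 * I) * (S.card / B) * H * X := by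
          field_simp
          ring
  -- the pairs of large rank
  have hrank : ∑ n ∈ Icc 1 X, GG a n * ∑ x ∈ (A ×ˢ S).filter (fun x => I ≤ rkJ S x), Tc b c y H n x.1 (x.1 * x.2) ≤
      ε / 2 * (S.card / B) * H * X := by
    have hcr := card_rankJ A S D B J I hD hB hA hS (fun e he => (hSR e he).2.2)
    have hT : ∀ n ∈ Icc 1 X, GG a n * ∑ x ∈ (A ×ˢ S).filter (fun x => I ≤ rkJ S x), Tc b c y H n x.1 (x.1 * x.2) ≤
        GG a n * (((((A ×ˢ S).filter (fun x => I ≤ rkJ S x)).card : ℕ) : ℝ) * (2 * H / ((B * D : ℕ) : ℝ))) := by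
      intro n _
      refine mul_le_mul_of_nonneg_left ?_ (GG_nonneg a n)
      calc ∑ x ∈ (A ×ˢ S).filter (fun x => I ≤ rkJ S x), Tc b c y H n x.1 (x.1 * x.2)
          ≤ ∑ _x ∈ (A ×ˢ S).filter (fun x => I ≤ rkJ S x), 2 * (H : ℝ) / ((B * D : ℕ) : ℝ) := by
            refine Finset.sum_le_sum fun x hx => Pool.Agent.Helper8.BC.Tc_le hb c hc y H n _ _ (B * D) hBD ?_ (by omega)
            have hx1 := Finset.mem_product.1 (Finset.mem_filter.1 hx).1
            rw [mul_comm B D]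
            exact Nat.mul_le_mul (Finset.mem_Ico.1 (hA hx1.1)).1 (Finset.mem_Ico.1 (hS hx1.2)).1
        _ = _ := by rw [Finset.sum_const, nsmul_eq_mul]
    have hc2 : ((((A ×ˢ S).filter (fun x => I ≤ rkJ S x)).card : ℕ) : ℝ) ≤ 4 * 2 ^ J * D * S.card / I := by
      rw [le_div_iff₀ hI0]
      exact hcr
    calc _ ≤ ∑ n ∈ Icc 1 X, GG a n *
          (((((A ×ˢ S).filter (fun x => I ≤ rkJ S x)).card : ℕ) : ℝ) * (2 * H / ((B * D : ℕ) : ℝ))) :=
          Finset.sum_le_sum hT
      _ = (∑ n ∈ Icc 1 X, GG a n) *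
          (((((A ×ˢ S).filter (fun x => I ≤ rkJ S x)).card : ℕ) : ℝ) * (2 * H / ((B * D : ℕ) : ℝ))) := by
          rw [Finset.sum_mul]
      _ ≤ (C * X) * ((4 * 2 ^ J * D * S.card / I) * (2 * H / ((B * D : ℕ) : ℝ))) :=
          mul_le_mul hsum (mul_le_mul_of_nonneg_right hc2 (by positivity)) (by positivity) (by positivity)
      _ = (8 * 2 ^ J * C / I) * (S.card / B) * H * X := by
          push_cast
          field_simp
          ring
      _ ≤ ε / 2 * (S.card / B) * H * X := by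
          have h8 : 8 * 2 ^ J * C / I ≤ ε / 2 := by
            rw [div_le_iff₀ hε] at hI
            rw [div_le_iff₀ hI0]
            linarith
          exact mul_le_mul_of_nonneg_right (mul_le_mul_of_nonneg_right (mul_le_mul_of_nonneg_right h8 (by positivity))
            (Nat.cast_nonneg _)) (Nat.cast_nonneg _)
  have hsplit : ∑ n ∈ Icc 1 X, GG a n * ∑ d ∈ A, ∑ e ∈ S, Tc b c y H n d (d * e) =
      ∑ i ∈ range I, ∑ n ∈ Icc 1 X, GG a n * ∑ e ∈ EJ A S i, Tc b (fun e h => c (pickJ A S i e) h) y H n e e +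
        ∑ n ∈ Icc 1 X, GG a n * ∑ x ∈ (A ×ˢ S).filter (fun x => I ≤ rkJ S x), Tc b c y H n x.1 (x.1 * x.2) := by
    rw [Finset.sum_comm, ← Finset.sum_add_distrib]
    refine Finset.sum_congr rfl fun n _ => ?_
    rw [← Finset.mul_sum, ← mul_add]
    congr 1
    rw [← Finset.sum_product', split_rankJ A S hSp I (fun x => Tc b c y H n x.1 (x.1 * x.2))]
    congr 1
    exact Finset.sum_congr rfl fun i _ => sum_EJ A S hSp i b c y H n
  rw [hsplit]
  calc _ ≤ ∑ _i ∈ range I, ε / (2 * I) * (S.card / B) * H * X + ε / 2 * (S.card / B) * H * X :=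
        add_le_add (Finset.sum_le_sum fun i _ => hE i) hrank
    _ = ε * (S.card / B) * H * X := by
        rw [Finset.sum_const, Finset.card_range, nsmul_eq_mul]
        field_simp
        ring

end Pool.Agent.Helper83.BD
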