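import Pool.Agent.Helper83.BD.Defs

/-!
# BD-05: ranks of pairs `(d, e)`

MODEL: `Pool/Agent/Helper8/DW/Rank.lean`.
`rkJ_lt`: if `x.1 * x.2 = y.1 * y.2 = N` and `x.2 < y.2` then the set of `e' ∈ S` with `e' ∣ N`, `e' < x.2` is a proper subset of the one for `y` (it does not contain `x.2 ∈ S`, `x.2 ∣ N`).
`rkJ_inj`: trichotomy. `split_rankJ`: as `split_rank` in the model.
`card_rankJ`: `rkJ S (d, e) ≤ #{e' ∈ S : e' ∣ d e}`; for `e, e' ∈ S`, `g = gcd e e'`: `e' ∣ d e` iff `e'/g ∣ d` (`Nat.Coprime.dvd_of_dvd_mul_right`), and the number of multiples of `e'/g` in `(0, 2 D]` is at most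
`2 D g/e' ≤ 2 D g/B`. `∑_(e' ∈ S) gcd e e' ≤ ∑_(g ∣ e) g #{e' ∈ S : g ∣ e'} ≤ ∑_(g ∣ e) g (2 B/g) = 2 B τ(e)` (`S ⊆ (0, 2 B]`). So
`I #{rank ≥ I} ≤ ∑_(e ∈ S) (2 D/B) 2 B τ(e) = 4 D ∑_(e ∈ S) τ(e) ≤ 4 * 2^J D |S|` (`Helper33.MRB.b01_card_divisors` in `Pool/Agent/Helper33/MRB/B01.lean`: `card divisors ≤ 2 ^ cardFactors`; copy its 15 lines).
-/

set_option autoImplicit false

namespace Pool.Agent.Helper83.BD

open Finset

private theorem rkJ_lt {S : Finset ℕ} {x y : ℕ × ℕ} (hx : x.2 ∈ S) (h : x.1 * x.2 = y.1 * y.2)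
    (hlt : x.2 < y.2) : rkJ S x < rkJ S y := by
  unfold rkJ
  refine Finset.card_lt_card ⟨?_, ?_⟩
  · intro e he
    rw [Finset.mem_filter] at he ⊢
    exact ⟨he.1, h ▸ he.2.1, he.2.2.trans hlt⟩
  · intro hsub
    have h1 : x.2 ∈ S.filter (fun e' => e' ∣ y.1 * y.2 ∧ e' < y.2) := by
      rw [Finset.mem_filter]
      exact ⟨hx, h ▸ Dvd.intro_left _ rfl, hlt⟩
    have h2 := (Finset.mem_filter.1 (hsub h1)).2.2
    omega

theorem rkJ_inj {S : Finset ℕ} {x y : ℕ × ℕ} (hx : x.2 ∈ S) (hy : y.2 ∈ S) (hx0 : 0 < x.2)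
    (h : x.1 * x.2 = y.1 * y.2) (hr : rkJ S x = rkJ S y) : x = y := by
  rcases lt_trichotomy x.2 y.2 with h1 | h1 | h1
  · have := rkJ_lt hx h h1
    omega
  · rw [← h1] at h
    exact Prod.ext (Nat.eq_of_mul_eq_mul_right hx0 h) h1
  · have := rkJ_lt hy h.symm h1
    omega

theorem split_rankJ (A S : Finset ℕ) (hS : ∀ e ∈ S, 0 < e) (I : ℕ) (F : ℕ × ℕ → ℝ) :
    ∑ x ∈ A ×ˢ S, F x = ∑ i ∈ range I, ∑ x ∈ (A ×ˢ S).filter (fun x => rkJ S x = i), F x +
      ∑ x ∈ (A ×ˢ S).filter (fun x => I ≤ rkJ S x), F x := by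
  have h1 : ∀ i ∈ range I, ∑ x ∈ (A ×ˢ S).filter (fun x => rkJ S x = i), F x =
      ∑ x ∈ ((A ×ˢ S).filter (fun x => rkJ S x < I)).filter (fun x => rkJ S x = i), F x := by
    intro i hi
    rw [Finset.mem_range] at hi
    rw [Finset.filter_filter]
    refine Finset.sum_congr (Finset.filter_congr fun x _ => ?_) fun _ _ => rfl
    constructor
    · intro h
      exact ⟨by omega, h⟩
    · intro h
      exact h.2
  rw [Finset.sum_congr rfl h1, Finset.sum_fiberwise_of_maps_to (g := rkJ S)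
    (fun x hx => Finset.mem_range.2 (Finset.mem_filter.1 hx).2),
    ← Finset.sum_filter_add_sum_filter_not (A ×ˢ S) (fun x => rkJ S x < I)]
  congr 1
  exact Finset.sum_congr (Finset.filter_congr fun x _ => not_lt) fun _ _ => rfl

private theorem card_mult (T : Finset ℕ) (N m : ℕ) (hT : ∀ x ∈ T, 0 < x ∧ x ≤ N) :
    (((T.filter (fun x => m ∣ x)).card : ℕ) : ℝ) ≤ (N : ℝ) / m := by
  have h1 : T.filter (fun x => m ∣ x) ⊆ (Ioc 0 N).filter (fun x => m ∣ x) := by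
    intro x hx
    rw [Finset.mem_filter] at hx ⊢
    exact ⟨Finset.mem_Ioc.2 (hT x hx.1), hx.2⟩
  have h2 := Finset.card_le_card h1
  rw [Nat.Ioc_filter_dvd_card_eq_div] at h2
  calc (((T.filter (fun x => m ∣ x)).card : ℕ) : ℝ) ≤ ((N / m : ℕ) : ℝ) := by exact_mod_cast h2
    _ ≤ (N : ℝ) / m := Nat.cast_div_le

private theorem card_divisors_le (k : ℕ) :
    k.divisors.card ≤ 2 ^ (ArithmeticFunction.cardFactors k) := by
  classical
  induction k using Nat.recOnMul with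
  | zero => simp
  | one => simp
  | prime p hp =>
    rw [ArithmeticFunction.cardFactors_apply_prime hp, hp.divisors]
    exact Finset.card_le_two
  | mul a b ha hb =>
    rcases Nat.eq_zero_or_pos a with h | h
    · subst h; simp
    rcases Nat.eq_zero_or_pos b with h' | h'
    · subst h'; simp
    rw [ArithmeticFunction.cardFactors_mul h.ne' h'.ne', pow_add]
    have e : (a * b).divisors ⊆
        (a.divisors ×ˢ b.divisors).image (fun x => x.1 * x.2) := by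
      intro d hd
      rw [Nat.mem_divisors] at hd
      obtain ⟨x, y, hx, hy, hxy⟩ := (Nat.dvd_mul).1 hd.1
      rw [Finset.mem_image]
      refine ⟨(x, y), ?_, hxy⟩
      rw [Finset.mem_product, Nat.mem_divisors, Nat.mem_divisors]
      exact ⟨⟨hx, h.ne'⟩, ⟨hy, h'.ne'⟩⟩
    calc (a * b).divisors.card ≤ (a.divisors ×ˢ b.divisors).card :=
          (Finset.card_le_card e).trans Finset.card_image_le
      _ = a.divisors.card * b.divisors.card := Finset.card_product _ _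
      _ ≤ _ := Nat.mul_le_mul ha hb

/-- `∑_(e' ∈ S) gcd e e' ≤ 2 B τ(e)`. -/
private theorem sum_gcd (S : Finset ℕ) (B e : ℕ) (_hB : 1 ≤ B) (hS : S ⊆ Ico B (2 * B)) (he : e ∈ S) :
    ∑ e' ∈ S, (Nat.gcd e e' : ℝ) ≤ 2 * B * (e.divisors.card : ℝ) := by
  have hpos : ∀ x ∈ S, 0 < x ∧ x ≤ 2 * B := by
    intro x hx
    have := Finset.mem_Ico.1 (hS hx)
    omega
  have he0 : e ≠ 0 := (hpos e he).1.ne'
  have h1 : ∀ e' ∈ S, (Nat.gcd e e' : ℝ) ≤ ∑ g ∈ e.divisors, if g ∣ e' then (g : ℝ) else 0 := by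
    intro e' _
    have h2 : Nat.gcd e e' ∈ e.divisors := Nat.mem_divisors.2 ⟨Nat.gcd_dvd_left _ _, he0⟩
    have h3 := Finset.single_le_sum (f := fun g : ℕ => if g ∣ e' then (g : ℝ) else 0)
      (fun g _ => by
        show (0 : ℝ) ≤ if g ∣ e' then (g : ℝ) else 0
        split_ifs
        · exact Nat.cast_nonneg _
        · exact le_refl _) h2
    refine le_trans (le_of_eq ?_) h3
    show (Nat.gcd e e' : ℝ) = if Nat.gcd e e' ∣ e' then ((Nat.gcd e e' : ℕ) : ℝ) else 0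
    rw [if_pos (Nat.gcd_dvd_right _ _)]
  refine (Finset.sum_le_sum h1).trans ?_
  rw [Finset.sum_comm]
  have h4 : ∀ g ∈ e.divisors, (∑ e' ∈ S, if g ∣ e' then (g : ℝ) else 0) ≤ 2 * B := by
    intro g hg
    have hg0 : 0 < g := Nat.pos_of_mem_divisors hg
    have hg0' : (0 : ℝ) < g := by exact_mod_cast hg0
    rw [← Finset.sum_filter, Finset.sum_const, nsmul_eq_mul]
    have h5 := card_mult S (2 * B) g hpos
    calc (((S.filter (fun x => g ∣ x)).card : ℕ) : ℝ) * g ≤ (((2 * B : ℕ) : ℝ) / g) * g :=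
          mul_le_mul_of_nonneg_right h5 hg0'.le
      _ = 2 * B := by
        rw [div_mul_cancel₀ _ hg0'.ne']
        push_cast
        rfl
  refine (Finset.sum_le_sum h4).trans (le_of_eq ?_)
  rw [Finset.sum_const, nsmul_eq_mul]
  ring

private theorem card_dvd_mul (A : Finset ℕ) (D B e e' : ℕ) (hD : 1 ≤ D) (hB : 1 ≤ B) (hA : A ⊆ Ico D (2 * D))
    (he' : B ≤ e') :
    (((A.filter (fun d => e' ∣ d * e)).card : ℕ) : ℝ) ≤ 2 * D / B * (Nat.gcd e e' : ℝ) := by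
  have he0 : 0 < e' := lt_of_lt_of_le hB he'
  have hg0 : 0 < Nat.gcd e e' := Nat.gcd_pos_of_pos_right _ he0
  have hg0' : (0 : ℝ) < (Nat.gcd e e' : ℝ) := by exact_mod_cast hg0
  have h1 : A.filter (fun d => e' ∣ d * e) ⊆ A.filter (fun d => e' / Nat.gcd e e' ∣ d) := by
    intro d hd
    rw [Finset.mem_filter] at hd ⊢
    refine ⟨hd.1, ?_⟩
    have hcop : Nat.Coprime (e' / Nat.gcd e e') (e / Nat.gcd e e') :=
      (Nat.coprime_div_gcd_div_gcd hg0).symm
    refine hcop.dvd_of_dvd_mul_right ?_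
    have h2 : Nat.gcd e e' * (e' / Nat.gcd e e') ∣ Nat.gcd e e' * (d * (e / Nat.gcd e e')) := by
      rw [Nat.mul_div_cancel' (Nat.gcd_dvd_right e e')]
      have h3 : Nat.gcd e e' * (d * (e / Nat.gcd e e')) = d * e := by
        rw [mul_left_comm, Nat.mul_div_cancel' (Nat.gcd_dvd_left e e')]
      rw [h3]
      exact hd.2
    exact Nat.dvd_of_mul_dvd_mul_left hg0 h2
  have h2 : (((A.filter (fun d => e' ∣ d * e)).card : ℕ) : ℝ) ≤
      (((A.filter (fun d => e' / Nat.gcd e e' ∣ d)).card : ℕ) : ℝ) := by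
    exact_mod_cast Finset.card_le_card h1
  refine h2.trans ((card_mult A (2 * D) _ (fun x hx => ?_)).trans ?_)
  · have := Finset.mem_Ico.1 (hA hx)
    omega
  · have hq : ((e' / Nat.gcd e e' : ℕ) : ℝ) = (e' : ℝ) / (Nat.gcd e e' : ℝ) :=
      Nat.cast_div (Nat.gcd_dvd_right e e') hg0'.ne'
    have hB0 : (0 : ℝ) < B := by exact_mod_cast hB
    have he0' : (B : ℝ) ≤ e' := by exact_mod_cast he'
    rw [hq]
    push_cast
    rw [div_div_eq_mul_div]
    calc 2 * (D : ℝ) * (Nat.gcd e e' : ℝ) / e' ≤ 2 * (D : ℝ) * (Nat.gcd e e' : ℝ) / B :=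
          div_le_div_of_nonneg_left (by positivity) hB0 he0'
      _ = _ := by ring

theorem card_rankJ (A S : Finset ℕ) (D B J I : ℕ) (hD : 1 ≤ D) (hB : 1 ≤ B) (hA : A ⊆ Ico D (2 * D))
    (hS : S ⊆ Ico B (2 * B)) (hJ : ∀ e ∈ S, ArithmeticFunction.cardFactors e ≤ J) :
    ((((A ×ˢ S).filter (fun x => I ≤ rkJ S x)).card : ℕ) : ℝ) * I ≤ 4 * 2 ^ J * D * S.card := by
  have hB0 : (0 : ℝ) < B := by exact_mod_cast hB
  have h1 : ((((A ×ˢ S).filter (fun x => I ≤ rkJ S x)).card : ℕ) : ℝ) * I ≤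
      ∑ x ∈ A ×ˢ S, (((S.filter (fun e' => e' ∣ x.1 * x.2)).card : ℕ) : ℝ) := by
    calc ((((A ×ˢ S).filter (fun x => I ≤ rkJ S x)).card : ℕ) : ℝ) * I
        = ∑ _x ∈ (A ×ˢ S).filter (fun x => I ≤ rkJ S x), (I : ℝ) := by
          rw [Finset.sum_const, nsmul_eq_mul]
      _ ≤ ∑ x ∈ (A ×ˢ S).filter (fun x => I ≤ rkJ S x),
            (((S.filter (fun e' => e' ∣ x.1 * x.2)).card : ℕ) : ℝ) := by
          refine Finset.sum_le_sum fun x hx => ?_
          have h2 := (Finset.mem_filter.1 hx).2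
          have h3 : rkJ S x ≤ (S.filter (fun e' => e' ∣ x.1 * x.2)).card := by
            unfold rkJ
            refine Finset.card_le_card fun p hp => ?_
            rw [Finset.mem_filter] at hp ⊢
            exact ⟨hp.1, hp.2.1⟩
          exact_mod_cast h2.trans h3
      _ ≤ _ := Finset.sum_le_sum_of_subset_of_nonneg (Finset.filter_subset _ _) fun _ _ _ => Nat.cast_nonneg _
  refine h1.trans ?_
  have h2 : ∑ x ∈ A ×ˢ S, (((S.filter (fun e' => e' ∣ x.1 * x.2)).card : ℕ) : ℝ) =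
      ∑ e ∈ S, ∑ e' ∈ S, (((A.filter (fun d => e' ∣ d * e)).card : ℕ) : ℝ) := by
    rw [Finset.sum_product_right]
    refine Finset.sum_congr rfl fun e _ => ?_
    simp only [Finset.card_filter]
    push_cast
    rw [Finset.sum_comm]
  rw [h2]
  calc ∑ e ∈ S, ∑ e' ∈ S, (((A.filter (fun d => e' ∣ d * e)).card : ℕ) : ℝ)
      ≤ ∑ e ∈ S, ∑ e' ∈ S, 2 * (D : ℝ) / B * (Nat.gcd e e' : ℝ) :=
        Finset.sum_le_sum fun e _ => Finset.sum_le_sum fun e' he' =>
          card_dvd_mul A D B e e' hD hB hA (Finset.mem_Ico.1 (hS he')).1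
    _ = ∑ e ∈ S, 2 * (D : ℝ) / B * ∑ e' ∈ S, (Nat.gcd e e' : ℝ) := by
        refine Finset.sum_congr rfl fun e _ => ?_
        rw [Finset.mul_sum]
    _ ≤ ∑ e ∈ S, 2 * (D : ℝ) / B * (2 * B * 2 ^ J) := by
        refine Finset.sum_le_sum fun e he => mul_le_mul_of_nonneg_left ?_ (by positivity)
        refine (sum_gcd S B e hB hS he).trans ?_
        have h3 : (e.divisors.card : ℝ) ≤ 2 ^ J := by
          have h4 : e.divisors.card ≤ 2 ^ J :=
            (card_divisors_le e).trans (Nat.pow_le_pow_right (by norm_num) (hJ e he))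
          exact_mod_cast h4
        exact mul_le_mul_of_nonneg_left h3 (by positivity)
    _ = 4 * 2 ^ J * D * S.card := by
        rw [Finset.sum_const, nsmul_eq_mul]
        field_simp
        ring

end Pool.Agent.Helper83.BD
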