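import Pool.Agent.Helper83.BD.TKt
import Pool.Agent.Helper83.BD.Comb
import Pool.Agent.Helper8.BC.Mass

/-!
# BD-03: the induction step

PROOF. Let `c₂, δ₂, B₂, J₂, R₂` be those of `Cl u₂`. `u₂ < u < 1` (`2 u < 1 + u₂ < 1 + u`). `t0 = (u - u₂)/(1 - u₂) ∈ (0, 1/2)`; choose `t0 < t1 < v < 1/2`, so `u < u₂ + t1 (1 - u₂)`.
`P = PU R t1 v` (`Helper8.BC.PU`; `R^t1 < p ≤ R^v` for `p ∈ P`, `|P| ≤ R^v`), `M = ∑_P 1/p ≥ Ma := log (v/t1)/2 > 0` for `R ≥ R0` (`Helper8.BC.mass` with `η = Ma`). `θ = (1 - c₂)/(1 + M) ∈ [0, 1]`.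
`κ = (1 - c₂)^2 Ma/(2 (1 + Ma)) ∈ (0, 1/2]`, `η > 0` with `√η + η ≤ κ/2`. `4 |P|^2 ≤ 4 R^(2 v) ≤ η R ≤ η K` for `R ≥ R0`.
`E' p`, `β' p` = the family of `Cl u₂` at `R / p` (natural division), `R / p ≥ R^(1 - v)/2 ≥ R₂` (`⌊x⌋ ≥ x/2` for `x ≥ 1`). The family: `E = P.biUnion (fun p => (E' p).image (p * ·))`, `β` of `comb` (`E' p = ∅`, `β' p = 0` for `p ∉ P`).
INEQUALITY (`w`, `K ≥ R`, `F`): `tkt` and `comb`: `1 - 2 θ M + θ^2 (M + M^2) = 1 - 2 θ M + θ M (1 - c₂) = 1 - θ M (1 + c₂)`, `√(1 - x) ≤ 1 - x/2`, so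
`‖∑ F‖ ≤ K (1 - θ M (1 + c₂)/2 + √η) + θ c₂ (K M + |P|) + ∑ β T ≤ K (1 - θ M (1 - c₂)/2 + √η + η) + ∑ β T` (`|P| ≤ 4 |P|^2 ≤ η K`, `θ c₂ ≤ 1`), and `θ M (1 - c₂)/2 = (1 - c₂)^2 M/(2 (1 + M)) ≥ κ`.
So `c = 1 - κ/2`.
SIZES. `e = p e'`, `e' ∈ E' p`: `e' ≥ (R/p)_nat^u₂ ≥ (R/(2 p))^u₂`, so `e ≥ p^(1 - u₂) (R/2)^u₂ ≥ R^(t1 (1 - u₂) + u₂)/2 ≥ R^u` for `R ≥ R0`. `e' ≤ (R/p)^(1 - δ₂)`: `e ≤ R^(1 - δ₂) p^δ₂ ≤ R^(1 - δ₂ (1 - v))`.
Prime factors: `p ≥ R^t1`, those of `e'` are `≥ (R/(2p))^δ₂ ≥ (R^(1 - v)/2)^δ₂ ≥ R^(δ₂ (1 - v)/2)` for `R ≥ R0`. `Ω e = 1 + Ω e' ≤ J₂ + 1`. So `δ = min t1 (δ₂ (1 - v)/2)` (`≤ 1/2`), `J = J₂ + 1`, `B = B₂ (J₂ + 1)`.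
-/

set_option autoImplicit false

namespace Pool.Agent.Helper83.BD

open Finset Filter

private theorem st_ev (s A : ℝ) (hs : 0 < s) : ∀ᶠ R : ℕ in atTop, A ≤ (R : ℝ) ^ s :=
  ((tendsto_rpow_atTop hs).comp tendsto_natCast_atTop_atTop).eventually_ge_atTop A

private theorem st_mem {R : ℕ} {t v : ℝ} {p : ℕ} (hp : p ∈ Pool.Agent.Helper8.BC.PU R t v) :
    p.Prime ∧ (R : ℝ) ^ t < p ∧ (p : ℝ) ≤ (R : ℝ) ^ v := by
  unfold Pool.Agent.Helper8.BC.PU at hp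
  rw [Finset.mem_filter, Finset.mem_Ioc] at hp
  refine ⟨hp.2, Nat.lt_of_floor_lt hp.1.1, ?_⟩
  exact (Nat.le_floor_iff (Real.rpow_nonneg (Nat.cast_nonneg R) v)).1 hp.1.2

private theorem st_card (R : ℕ) (t v : ℝ) :
    ((Pool.Agent.Helper8.BC.PU R t v).card : ℝ) ≤ (R : ℝ) ^ v := by
  unfold Pool.Agent.Helper8.BC.PU
  have h1 : ((Ioc ⌊(R : ℝ) ^ t⌋₊ ⌊(R : ℝ) ^ v⌋₊).filter Nat.Prime).card ≤ ⌊(R : ℝ) ^ v⌋₊ := by
    refine (Finset.card_filter_le _ _).trans ?_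
    rw [Nat.card_Ioc]
    omega
  calc (((Ioc ⌊(R : ℝ) ^ t⌋₊ ⌊(R : ℝ) ^ v⌋₊).filter Nat.Prime).card : ℝ) ≤ (⌊(R : ℝ) ^ v⌋₊ : ℝ) := by
        exact_mod_cast h1
    _ ≤ (R : ℝ) ^ v := Nat.floor_le (Real.rpow_nonneg (Nat.cast_nonneg R) v)

/-- The real inequality behind the choice of the weight. -/
private theorem st_ineq (c₂ M Ma θ K n η κ : ℝ) (hc0 : 0 ≤ c₂) (hc1 : c₂ < 1) (hMa : 0 < Ma) (hM : Ma ≤ M)
    (hθ : θ = (1 - c₂) / (1 + M)) (hκ : κ = (1 - c₂) ^ 2 * Ma / (2 * (1 + Ma))) (hη : √η + η ≤ κ / 2)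
    (hK : 0 ≤ K) (hn : θ * c₂ * n ≤ η * K) :
    K * (√(1 - 2 * θ * M + θ ^ 2 * (M + M ^ 2)) + √η) + θ * c₂ * (K * M + n) ≤ (1 - κ / 2) * K := by
  have hM0 : 0 < M := hMa.trans_le hM
  have h1M : 0 < 1 + M := by linarith
  have hθM : θ * (1 + M) = 1 - c₂ := by rw [hθ]; field_simp
  have hθ0 : 0 < θ := by rw [hθ]; exact div_pos (by linarith) h1M
  have e1 : 1 - 2 * θ * M + θ ^ 2 * (M + M ^ 2) = 1 - θ * M * (1 + c₂) := by
    have : θ ^ 2 * (M + M ^ 2) = θ * M * (θ * (1 + M)) := by ring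
    rw [this, hθM]
    ring
  have hx0 : 0 ≤ θ * M * (1 + c₂) := by positivity
  have hθM1 : θ * M ≤ 1 - c₂ := by nlinarith
  have hx1 : θ * M * (1 + c₂) ≤ 1 := by nlinarith
  have e2 : √(1 - θ * M * (1 + c₂)) ≤ 1 - θ * M * (1 + c₂) / 2 := by
    rw [Real.sqrt_le_left (by linarith)]
    nlinarith [sq_nonneg (θ * M * (1 + c₂))]
  have e3 : κ ≤ θ * M * (1 - c₂) / 2 := by
    have h1 : θ * M * (1 - c₂) / 2 = (1 - c₂) ^ 2 * M / (2 * (1 + M)) := by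
      rw [hθ]
      field_simp
    rw [h1, hκ, div_le_div_iff₀ (by positivity) (by positivity)]
    have h2 : 0 ≤ (1 - c₂) ^ 2 := sq_nonneg _
    nlinarith [mul_nonneg h2 (sub_nonneg.2 hM)]
  rw [e1]
  have e4 : K * (√(1 - θ * M * (1 + c₂)) + √η) ≤ K * (1 - θ * M * (1 + c₂) / 2 + √η) :=
    mul_le_mul_of_nonneg_left (by linarith) hK
  have e5 : K * (√η + η) ≤ K * (κ / 2) := mul_le_mul_of_nonneg_left hη hK
  have e6 : K * κ ≤ K * (θ * M * (1 - c₂) / 2) := mul_le_mul_of_nonneg_left e3 hK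
  calc K * (√(1 - θ * M * (1 + c₂)) + √η) + θ * c₂ * (K * M + n)
      ≤ K * (1 - θ * M * (1 + c₂) / 2 + √η) + θ * c₂ * (K * M) + η * K := by linarith
    _ = K + K * (√η + η) - K * (θ * M * (1 - c₂) / 2) := by ring
    _ ≤ K + K * (κ / 2) - K * κ := by linarith
    _ = (1 - κ / 2) * K := by ring

theorem step (u₂ u : ℝ) (h0 : 0 ≤ u₂) (h1 : u₂ < u) (h2 : 2 * u < 1 + u₂) (h : Cl u₂) : Cl u := by
  obtain ⟨c₂, δ₂, B₂, hc0, hc1, hδ0, hδ1, hB0, J₂, R₂, hfam⟩ := h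
  have hu21 : u₂ < 1 := by linarith
  have hu1 : u < 1 := by linarith
  have hu0 : 0 < u := by linarith
  obtain ⟨t0, ht0⟩ : ∃ t0, t0 = (u - u₂) / (1 - u₂) := ⟨_, rfl⟩
  have h1u2 : 0 < 1 - u₂ := by linarith
  have ht0m : t0 * (1 - u₂) = u - u₂ := by rw [ht0]; field_simp
  have ht00 : 0 < t0 := by rw [ht0]; exact div_pos (by linarith) h1u2
  have ht01 : t0 < 1 / 2 := by
    rw [ht0, div_lt_iff₀ h1u2]
    linarith
  obtain ⟨t1, ht1⟩ : ∃ t1, t1 = (4 * t0 + 1) / 6 := ⟨_, rfl⟩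
  obtain ⟨v, hv⟩ : ∃ v, v = (t0 + 1) / 3 := ⟨_, rfl⟩
  have ht1a : t0 < t1 := by rw [ht1]; linarith
  have ht1v : t1 < v := by rw [ht1, hv]; linarith
  have hv1 : v < 1 / 2 := by rw [hv]; linarith
  have ht10 : 0 < t1 := by linarith
  have hv0 : 0 < v := by linarith
  obtain ⟨s, hs⟩ : ∃ s, s = t1 * (1 - u₂) + u₂ - u := ⟨_, rfl⟩
  have hs0 : 0 < s := by
    have : t0 * (1 - u₂) < t1 * (1 - u₂) := mul_lt_mul_of_pos_right ht1a h1u2
    rw [hs]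
    linarith
  obtain ⟨Ma, hMa⟩ : ∃ Ma, Ma = Real.log (v / t1) / 2 := ⟨_, rfl⟩
  have hMa0 : 0 < Ma := by
    have : 1 < v / t1 := (one_lt_div ht10).2 ht1v
    have := Real.log_pos this
    rw [hMa]
    linarith
  obtain ⟨κ, hκ⟩ : ∃ κ, κ = (1 - c₂) ^ 2 * Ma / (2 * (1 + Ma)) := ⟨_, rfl⟩
  have h1c : 0 < 1 - c₂ := by linarith
  have hκ0 : 0 < κ := by rw [hκ]; positivity
  have hκ1 : κ ≤ 1 / 2 := by
    have h3 : (1 - c₂) ^ 2 ≤ 1 := by nlinarith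
    rw [hκ, div_le_iff₀ (by positivity)]
    nlinarith
  obtain ⟨η, hη⟩ : ∃ η, η = (κ / 4) ^ 2 := ⟨_, rfl⟩
  have hη0 : 0 < η := by rw [hη]; positivity
  have hsη : √η + η ≤ κ / 2 := by
    rw [hη, Real.sqrt_sq (by linarith)]
    nlinarith
  obtain ⟨δ, hδ⟩ : ∃ δ, δ = min t1 (δ₂ * (1 - v) / 2) := ⟨_, rfl⟩
  have h1v : 0 < 1 - v := by linarith
  have hδp : 0 < δ := by
    rw [hδ]
    exact lt_min ht10 (by positivity)
  have hδa : δ ≤ t1 := by rw [hδ]; exact min_le_left _ _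
  have hδb : δ ≤ δ₂ * (1 - v) / 2 := by rw [hδ]; exact min_le_right _ _
  obtain ⟨Rm, hRm⟩ := Pool.Agent.Helper8.BC.mass t1 v Ma ht10 ht1v hMa0
  have ev : ∀ᶠ R : ℕ in atTop, Rm ≤ R ∧ 1 ≤ R ∧ 4 / η ≤ (R : ℝ) ^ (1 - 2 * v) ∧
      2 * (R₂ : ℝ) + 2 ≤ (R : ℝ) ^ (1 - v) ∧ 2 ≤ (R : ℝ) ^ s ∧ 2 ≤ (R : ℝ) ^ ((1 - v) / 2) := by
    filter_upwards [eventually_ge_atTop Rm, eventually_ge_atTop 1, st_ev (1 - 2 * v) (4 / η) (by linarith),
      st_ev (1 - v) (2 * (R₂ : ℝ) + 2) h1v, st_ev s 2 hs0, st_ev ((1 - v) / 2) 2 (by linarith)] with R a b c d e f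
    exact ⟨a, b, c, d, e, f⟩
  obtain ⟨R0, hR0⟩ := eventually_atTop.1 ev
  refine ⟨1 - κ / 2, δ, B₂ * (J₂ + 1), by linarith, by linarith, hδp, by linarith, by positivity, J₂ + 1, R0, ?_⟩
  intro R hR
  obtain ⟨hR1, hR2, hR3, hR4, hR5, hR6⟩ := hR0 R hR
  have hRpos : (0 : ℝ) < R := by exact_mod_cast hR2
  have hRone : (1 : ℝ) ≤ R := by exact_mod_cast hR2
  obtain ⟨P, hPdef⟩ : ∃ P, P = Pool.Agent.Helper8.BC.PU R t1 v := ⟨_, rfl⟩
  have hPm : ∀ p ∈ P, p.Prime ∧ (R : ℝ) ^ t1 < p ∧ (p : ℝ) ≤ (R : ℝ) ^ v := by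
    intro p hp
    rw [hPdef] at hp
    exact st_mem hp
  have hPp : ∀ p ∈ P, p.Prime := fun p hp => (hPm p hp).1
  have hPc : (P.card : ℝ) ≤ (R : ℝ) ^ v := by
    rw [hPdef]
    exact st_card R t1 v
  obtain ⟨M, hMdef⟩ : ∃ M, M = ∑ p ∈ P, (1 : ℝ) / p := ⟨_, rfl⟩
  have hMM : Ma ≤ M := by
    have := hRm R hR1
    rw [← hPdef, ← hMdef] at this
    rw [hMa] at this ⊢
    linarith
  have hM0 : 0 < M := hMa0.trans_le hMM
  obtain ⟨θ, hθ⟩ : ∃ θ, θ = (1 - c₂) / (1 + M) := ⟨_, rfl⟩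
  have hθ0 : 0 ≤ θ := by rw [hθ]; positivity
  have hθ1 : θ ≤ 1 := by
    rw [hθ, div_le_one (by positivity)]
    linarith
  -- the windows
  have hq : ∀ p ∈ P, (R : ℝ) ^ (1 - v) ≤ (R : ℝ) / p := by
    intro p hp
    obtain ⟨h3, h4, h5⟩ := hPm p hp
    have hp0 : (0 : ℝ) < p := by exact_mod_cast h3.pos
    rw [le_div_iff₀ hp0]
    calc (R : ℝ) ^ (1 - v) * p ≤ (R : ℝ) ^ (1 - v) * (R : ℝ) ^ v :=
          mul_le_mul_of_nonneg_left h5 (by positivity)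
      _ = (R : ℝ) ^ (1 : ℝ) := by rw [← Real.rpow_add hRpos]; congr 1; ring
      _ = R := Real.rpow_one _
  have hfl : ∀ p ∈ P, (R : ℝ) / (2 * p) ≤ ((R / p : ℕ) : ℝ) := by
    intro p hp
    have h3 := hq p hp
    have hp0 : (0 : ℝ) < p := by exact_mod_cast (hPp p hp).pos
    have h4 : (1 : ℝ) ≤ (R : ℝ) / p := by
      refine le_trans ?_ h3
      have : (0 : ℝ) ≤ R₂ := Nat.cast_nonneg _
      linarith
    have h5 : (R : ℝ) / p < ((R / p : ℕ) : ℝ) + 1 := by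
      rw [div_lt_iff₀ hp0]
      have := Nat.lt_mul_div_succ R (hPp p hp).pos
      have h6 : (R : ℝ) < (p : ℝ) * (((R / p : ℕ) : ℝ) + 1) := by exact_mod_cast this
      linarith
    have h6 : (1 : ℝ) ≤ ((R / p : ℕ) : ℝ) := by
      have h7 : 0 < ((R / p : ℕ) : ℝ) := by linarith
      have h8 : 0 < R / p := by exact_mod_cast h7
      exact_mod_cast h8
    have h7 : (R : ℝ) / (2 * p) = (R : ℝ) / p / 2 := by field_simp
    rw [h7]
    linarith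
  have hex : ∀ p, ∃ (E : Finset ℕ) (β : ℕ → ℝ), (p ∈ P → Fam u₂ δ₂ B₂ c₂ J₂ (R / p) E β) ∧
      (p ∉ P → E = ∅) ∧ (∀ e, 0 ≤ β e) ∧ (∀ e, β e ≤ B₂) := by
    intro p
    by_cases hp : p ∈ P
    · have h3 : R₂ ≤ R / p := by
        have h4 := hfl p hp
        have h5 := hq p hp
        have hp0 : (0 : ℝ) < p := by exact_mod_cast (hPp p hp).pos
        have h7 : (R : ℝ) / (2 * p) = (R : ℝ) / p / 2 := by field_simp
        rw [h7] at h4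
        have h8 : (R₂ : ℝ) ≤ ((R / p : ℕ) : ℝ) := by linarith
        exact_mod_cast h8
      obtain ⟨E, β, hE⟩ := hfam (R / p) h3
      exact ⟨E, β, fun _ => hE, fun h => absurd hp h, hE.nn, hE.le⟩
    · exact ⟨∅, fun _ => 0, fun h => absurd h hp, fun _ => rfl, fun _ => le_rfl, fun _ => hB0⟩
  choose E' β' hF1 hF2 hF3 hF4 using hex
  have hJ : ∀ p ∈ P, ∀ e ∈ E' p, 0 < e ∧ ArithmeticFunction.cardFactors e ≤ J₂ := by
    intro p hp e he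
    obtain ⟨a, b, c⟩ := (hF1 p hp).ro e he
    exact ⟨a, c⟩
  obtain ⟨β, hβ0, hβB, hmain⟩ := comb P hPp E' β' B₂ c₂ θ hF3 hF4 hc0 hθ0 hθ1 J₂ R hJ
    (fun p hp => (hF1 p hp).tk)
  refine ⟨P.biUnion (fun p => (E' p).image (fun e => p * e)), β, ?_, ?_, ?_, hβ0, hβB, ?_⟩
  · -- lower bound of the size
    intro e he
    rw [Finset.mem_biUnion] at he
    obtain ⟨p, hp, he⟩ := he
    rw [Finset.mem_image] at he
    obtain ⟨e', he', rfl⟩ := he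
    obtain ⟨h3, h4, h5⟩ := hPm p hp
    have hp0 : (0 : ℝ) < p := by exact_mod_cast h3.pos
    have h6 := (hF1 p hp).lo e' he'
    have h7 := hfl p hp
    have h8 : ((R : ℝ) / (2 * p)) ^ u₂ ≤ e' :=
      (Real.rpow_le_rpow (by positivity) h7 h0).trans h6
    push_cast
    have h9 : (p : ℝ) * ((R : ℝ) / (2 * p)) ^ u₂ = (p : ℝ) ^ (1 - u₂) * ((R : ℝ) / 2) ^ u₂ := by
      have e1 : (R : ℝ) / (2 * p) = (R : ℝ) / 2 / p := by field_simp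
      rw [e1, Real.div_rpow (by positivity) hp0.le, Real.rpow_sub hp0, Real.rpow_one]
      field_simp
    have h10 : ((R : ℝ) ^ t1) ^ (1 - u₂) ≤ (p : ℝ) ^ (1 - u₂) :=
      Real.rpow_le_rpow (by positivity) h4.le h1u2.le
    have h11 : (R : ℝ) ^ u₂ / 2 ≤ ((R : ℝ) / 2) ^ u₂ := by
      rw [Real.div_rpow hRpos.le (by norm_num)]
      refine div_le_div_of_nonneg_left (by positivity) (by positivity) ?_
      calc (2 : ℝ) ^ u₂ ≤ (2 : ℝ) ^ (1 : ℝ) := Real.rpow_le_rpow_of_exponent_le (by norm_num) hu21.le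
        _ = 2 := Real.rpow_one _
    calc (R : ℝ) ^ u ≤ (R : ℝ) ^ u * ((R : ℝ) ^ s / 2) := by
          refine le_mul_of_one_le_right (by positivity) ?_
          linarith
      _ = ((R : ℝ) ^ t1) ^ (1 - u₂) * ((R : ℝ) ^ u₂ / 2) := by
          rw [← Real.rpow_mul hRpos.le, ← mul_div_assoc, ← mul_div_assoc, ← Real.rpow_add hRpos,
            ← Real.rpow_add hRpos, hs]
          congr 2
          ring
      _ ≤ (p : ℝ) ^ (1 - u₂) * ((R : ℝ) / 2) ^ u₂ := by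
          exact mul_le_mul h10 h11 (by positivity) (by positivity)
      _ = (p : ℝ) * ((R : ℝ) / (2 * p)) ^ u₂ := h9.symm
      _ ≤ p * e' := mul_le_mul_of_nonneg_left h8 hp0.le
  · -- upper bound of the size
    intro e he
    rw [Finset.mem_biUnion] at he
    obtain ⟨p, hp, he⟩ := he
    rw [Finset.mem_image] at he
    obtain ⟨e', he', rfl⟩ := he
    obtain ⟨h3, h4, h5⟩ := hPm p hp
    have hp0 : (0 : ℝ) < p := by exact_mod_cast h3.pos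
    have h6 := (hF1 p hp).hi e' he'
    have h7 : ((R / p : ℕ) : ℝ) ≤ (R : ℝ) / p := Nat.cast_div_le
    have h8 : (e' : ℝ) ≤ ((R : ℝ) / p) ^ (1 - δ₂) :=
      h6.trans (Real.rpow_le_rpow (Nat.cast_nonneg _) h7 (by linarith))
    push_cast
    calc (p : ℝ) * e' ≤ p * ((R : ℝ) / p) ^ (1 - δ₂) := mul_le_mul_of_nonneg_left h8 hp0.le
      _ = (R : ℝ) ^ (1 - δ₂) * (p : ℝ) ^ δ₂ := by
          rw [Real.div_rpow hRpos.le hp0.le, Real.rpow_sub hp0 1 δ₂, Real.rpow_one]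
          field_simp
      _ ≤ (R : ℝ) ^ (1 - δ₂) * ((R : ℝ) ^ v) ^ δ₂ :=
          mul_le_mul_of_nonneg_left (Real.rpow_le_rpow hp0.le h5 hδ0.le) (by positivity)
      _ = (R : ℝ) ^ (1 - δ₂ + v * δ₂) := by
          rw [← Real.rpow_mul hRpos.le, ← Real.rpow_add hRpos]
      _ ≤ (R : ℝ) ^ (1 - δ) := by
          refine Real.rpow_le_rpow_of_exponent_le hRone ?_
          nlinarith
  · -- rough
    intro e he
    rw [Finset.mem_biUnion] at he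
    obtain ⟨p, hp, he⟩ := he
    rw [Finset.mem_image] at he
    obtain ⟨e', he', rfl⟩ := he
    obtain ⟨h3, h4, h5⟩ := hPm p hp
    have hp0 : (0 : ℝ) < p := by exact_mod_cast h3.pos
    obtain ⟨r1, r2, r3⟩ := (hF1 p hp).ro e' he'
    refine ⟨Nat.mul_pos h3.pos r1, ?_, ?_⟩
    · intro q hq'
      rw [Nat.primeFactors_mul h3.ne_zero r1.ne', Finset.mem_union] at hq'
      rcases hq' with hq' | hq'
      · rw [Nat.Prime.primeFactors h3, Finset.mem_singleton] at hq'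
        rw [hq']
        exact (Real.rpow_le_rpow_of_exponent_le hRone hδa).trans h4.le
      · have h6 := r2 q hq'
        refine le_trans ?_ h6
        have h7 : (R : ℝ) ^ ((1 - v) / 2) ≤ ((R / p : ℕ) : ℝ) := by
          have h8 := hfl p hp
          have h9 := hq p hp
          have h10 : (R : ℝ) / (2 * p) = (R : ℝ) / p / 2 := by field_simp
          have h11 : (R : ℝ) ^ (1 - v) = (R : ℝ) ^ ((1 - v) / 2) * (R : ℝ) ^ ((1 - v) / 2) := by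
            rw [← Real.rpow_add hRpos]
            congr 1
            ring
          have h12 : 0 ≤ (R : ℝ) ^ ((1 - v) / 2) := by positivity
          rw [h10] at h8
          rw [h11] at h9
          nlinarith
        calc (R : ℝ) ^ δ ≤ (R : ℝ) ^ (δ₂ * (1 - v) / 2) := Real.rpow_le_rpow_of_exponent_le hRone hδb
          _ = ((R : ℝ) ^ ((1 - v) / 2)) ^ δ₂ := by
              rw [← Real.rpow_mul hRpos.le]
              congr 1
              ring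
          _ ≤ (((R / p : ℕ) : ℝ)) ^ δ₂ := Real.rpow_le_rpow (by positivity) h7 hδ0.le
    · rw [ArithmeticFunction.cardFactors_mul h3.ne_zero r1.ne',
        ArithmeticFunction.cardFactors_apply_prime h3]
      omega
  · -- the inequality
    intro w K hK F hF
    have hRK : (R : ℝ) ≤ K := by exact_mod_cast hK
    have hK0 : (0 : ℝ) ≤ K := by linarith
    have hPK : 4 * (P.card : ℝ) ^ 2 ≤ η * K := by
      have h3 : (P.card : ℝ) ^ 2 ≤ ((R : ℝ) ^ v) ^ 2 := by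
        gcongr
      have h4 : ((R : ℝ) ^ v) ^ 2 * (R : ℝ) ^ (1 - 2 * v) = R := by
        rw [pow_two, ← Real.rpow_add hRpos, ← Real.rpow_add hRpos]
        rw [show v + v + (1 - 2 * v) = (1 : ℝ) by ring, Real.rpow_one]
      have h5 : ((R : ℝ) ^ v) ^ 2 * (4 / η) ≤ R := by
        calc ((R : ℝ) ^ v) ^ 2 * (4 / η) ≤ ((R : ℝ) ^ v) ^ 2 * (R : ℝ) ^ (1 - 2 * v) :=
              mul_le_mul_of_nonneg_left hR3 (by positivity)
          _ = R := h4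
      have h6 : ((R : ℝ) ^ v) ^ 2 * 4 ≤ R * η := by
        rw [← mul_div_assoc, div_le_iff₀ hη0] at h5
        exact h5
      nlinarith
    have hPn : θ * c₂ * (P.card : ℝ) ≤ η * K := by
      have hPn0 : (0 : ℝ) ≤ P.card := Nat.cast_nonneg _
      have h3 : θ * c₂ ≤ 1 := by nlinarith
      have h4 : (P.card : ℝ) ≤ 4 * (P.card : ℝ) ^ 2 := by
        rcases Nat.eq_zero_or_pos P.card with h | h
        · rw [h]; simp
        · have : (1 : ℝ) ≤ P.card := by exact_mod_cast h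
          nlinarith
      calc θ * c₂ * (P.card : ℝ) ≤ 1 * P.card := mul_le_mul_of_nonneg_right h3 hPn0
        _ ≤ η * K := by linarith
    have h3 := tkt P hPp η hη0.le w K hPK θ hθ0 hθ1 F hF
    have h4 := hmain w K hK F hF
    have h5 := st_ineq c₂ M Ma θ K P.card η κ hc0 hc1 hMa0 hMM hθ hκ hsη hK0 hPn
    rw [← hMdef] at h3 h4
    linarith

end Pool.Agent.Helper83.BD
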