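import Pool.Agent.Helper83.BD.Defs

/-!
# BD-01: the Turán-Kubilius inequality with an arbitrary weight `θ ∈ [0, 1]`

MODEL: `Pool/Agent/Helper8/DW/TK.lean` (private lemmas `cnt_eq`, `cnt_le`, `cnt_ge`, `om_eq`; copy them), or the proof of `tkc` in `Pool/Agent/Helper8/BC/TKc.lean` (BC-15; same statement with
`θ = 1/(1 + M)`), if it has landed.
PROOF. `M = ∑ 1/p`, `ω m` = number of `p ∈ P` dividing `m`. `∑_m F m = ∑_m F m (1 - θ ω m) + θ ∑_p ∑_(p ∣ m) F m`, and `|∑ F (1 - θ ω)|^2 ≤ K ∑ (1 - θ ω)^2` (Cauchy-Schwarz).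
The number of multiples of `p` in the window is in `[K/p - 1, K/p + 1]`, of `p p'` (`p ≠ p'`) at most `K/(p p') + 1`. So `∑ ω ≥ K M - |P|`, `∑ ω^2 ≤ (K M + |P|) + (K M^2 + |P|^2 - |P|)`, hence
`∑ (1 - θ ω)^2 ≤ K - 2 θ K M + 2 θ |P| + θ^2 K (M + M^2) + θ^2 |P|^2 ≤ K (1 - 2 θ M + θ^2 (M + M^2)) + 3 |P|^2 ≤ K (1 - 2 θ M + θ^2 (M + M^2)) + η K`
(`0 ≤ θ ≤ 1`, `|P| ≤ |P|^2`), and `√(K (x K + η K)) ≤ K (√x + √η)` with `x = 1 - 2 θ M + θ^2 (M + M^2) = (1 - θ M)^2 + θ^2 M ≥ 0`.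
-/

set_option autoImplicit false

namespace Pool.Agent.Helper83.BD

open Finset

private theorem cnt_eq (d N H : ℕ) :
    ((Ioc N (N + H)).filter (fun m => d ∣ m)).card + N / d = (N + H) / d := by
  rw [← Nat.Ioc_filter_dvd_card_eq_div (N + H) d, ← Nat.Ioc_filter_dvd_card_eq_div N d,
    ← Finset.card_union_of_disjoint, ← Finset.filter_union]
  · congr 1
    ext m
    simp only [Finset.mem_filter, Finset.mem_union, Finset.mem_Ioc]
    omega
  · rw [Finset.disjoint_left]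
    intro m hm hm'
    simp only [Finset.mem_filter, Finset.mem_Ioc] at hm hm'
    omega

private theorem cnt_le {d : ℕ} (hd : 1 ≤ d) (N H : ℕ) :
    ((((Ioc N (N + H)).filter (fun m => d ∣ m)).card : ℕ) : ℝ) ≤ H / d + 1 := by
  have hd0 : (0 : ℝ) < d := by exact_mod_cast hd
  have h : ((((Ioc N (N + H)).filter (fun m => d ∣ m)).card : ℕ) : ℝ) + ((N / d : ℕ) : ℝ) = (((N + H) / d : ℕ) : ℝ) := by
    exact_mod_cast cnt_eq d N H
  have h1 : (((N + H) / d : ℕ) : ℝ) ≤ ((N + H : ℕ) : ℝ) / d := Nat.cast_div_le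
  have h2 : (N : ℝ) / d < ((N / d : ℕ) : ℝ) + 1 := by
    rw [div_lt_iff₀ hd0]
    have := Nat.lt_mul_div_succ N (show 0 < d by omega)
    have h3 : (N : ℝ) < (d : ℝ) * (((N / d : ℕ) : ℝ) + 1) := by exact_mod_cast this
    linarith
  push_cast at h1
  rw [add_div] at h1
  linarith

private theorem cnt_ge {d : ℕ} (hd : 1 ≤ d) (N H : ℕ) :
    (H : ℝ) / d - 1 ≤ (((Ioc N (N + H)).filter (fun m => d ∣ m)).card : ℕ) := by
  have hd0 : (0 : ℝ) < d := by exact_mod_cast hd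
  have h : ((((Ioc N (N + H)).filter (fun m => d ∣ m)).card : ℕ) : ℝ) + ((N / d : ℕ) : ℝ) = (((N + H) / d : ℕ) : ℝ) := by
    exact_mod_cast cnt_eq d N H
  have h1 : ((N / d : ℕ) : ℝ) ≤ (N : ℝ) / d := Nat.cast_div_le
  have h2 : ((N + H : ℕ) : ℝ) / d < (((N + H) / d : ℕ) : ℝ) + 1 := by
    rw [div_lt_iff₀ hd0]
    have := Nat.lt_mul_div_succ (N + H) (show 0 < d by omega)
    have h3 : ((N + H : ℕ) : ℝ) < (d : ℝ) * ((((N + H) / d : ℕ) : ℝ) + 1) := by exact_mod_cast this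
    linarith
  push_cast at h2
  rw [add_div] at h2
  linarith

private theorem om_eq (P : Finset ℕ) (m : ℕ) :
    (((P.filter (fun p => p ∣ m)).card : ℕ) : ℝ) = ∑ p ∈ P, if p ∣ m then (1 : ℝ) else 0 := by
  rw [Finset.card_filter]
  push_cast
  rfl

private theorem om_eqC (P : Finset ℕ) (m : ℕ) :
    (((P.filter (fun p => p ∣ m)).card : ℕ) : ℂ) = ∑ p ∈ P, if p ∣ m then (1 : ℂ) else 0 := by
  rw [Finset.card_filter]
  push_cast
  rfl

private theorem first_mom {P : Finset ℕ} (hP : ∀ p ∈ P, p.Prime) (N H : ℕ) :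
    H * (∑ p ∈ P, (1 : ℝ) / p) - (P.card : ℝ) ≤
      ∑ m ∈ Ioc N (N + H), (((P.filter (fun p => p ∣ m)).card : ℕ) : ℝ) := by
  have h1 : ∑ m ∈ Ioc N (N + H), (((P.filter (fun p => p ∣ m)).card : ℕ) : ℝ) =
      ∑ p ∈ P, ((((Ioc N (N + H)).filter (fun m => p ∣ m)).card : ℕ) : ℝ) := by
    rw [Finset.sum_congr rfl fun m _ => om_eq P m, Finset.sum_comm]
    refine Finset.sum_congr rfl fun p _ => ?_
    rw [Finset.card_filter]
    push_cast
    rfl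
  rw [h1]
  have h2 : H * (∑ p ∈ P, (1 : ℝ) / p) - (P.card : ℝ) = ∑ p ∈ P, ((H : ℝ) / p - 1) := by
    rw [Finset.sum_sub_distrib, Finset.mul_sum]
    simp [div_eq_mul_inv]
  rw [h2]
  exact Finset.sum_le_sum fun p hp => cnt_ge (hP p hp).one_lt.le N H

private theorem second_mom {P : Finset ℕ} (hP : ∀ p ∈ P, p.Prime) (N H : ℕ) :
    ∑ m ∈ Ioc N (N + H), (((P.filter (fun p => p ∣ m)).card : ℕ) : ℝ) ^ 2 ≤
      H * (∑ p ∈ P, (1 : ℝ) / p) ^ 2 + H * (∑ p ∈ P, (1 : ℝ) / p) + (P.card : ℝ) ^ 2 := by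
  have hH0 : (0 : ℝ) ≤ H := Nat.cast_nonneg H
  have h1 : ∑ m ∈ Ioc N (N + H), (((P.filter (fun p => p ∣ m)).card : ℕ) : ℝ) ^ 2 =
      ∑ p ∈ P, ∑ q ∈ P, ((((Ioc N (N + H)).filter (fun m => p ∣ m ∧ q ∣ m)).card : ℕ) : ℝ) := by
    have h3 : ∀ m ∈ Ioc N (N + H), (((P.filter (fun p => p ∣ m)).card : ℕ) : ℝ) ^ 2 =
        ∑ p ∈ P, ∑ q ∈ P, if p ∣ m ∧ q ∣ m then (1 : ℝ) else 0 := by
      intro m _
      rw [om_eq P m, pow_two, Finset.sum_mul_sum]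
      refine Finset.sum_congr rfl fun p _ => Finset.sum_congr rfl fun q _ => ?_
      by_cases h4 : p ∣ m <;> by_cases h5 : q ∣ m <;> simp [h4, h5]
    rw [Finset.sum_congr rfl h3, Finset.sum_comm]
    refine Finset.sum_congr rfl fun p _ => ?_
    rw [Finset.sum_comm]
    refine Finset.sum_congr rfl fun q _ => ?_
    rw [Finset.card_filter]
    push_cast
    rfl
  rw [h1]
  have h2 : ∀ p ∈ P, ∀ q ∈ P, ((((Ioc N (N + H)).filter (fun m => p ∣ m ∧ q ∣ m)).card : ℕ) : ℝ) ≤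
      H * ((1 : ℝ) / p * (1 / q)) + (if p = q then (H : ℝ) / p else 0) + 1 := by
    intro p hp q hq
    have hp0 : (0 : ℝ) < p := by exact_mod_cast (hP p hp).pos
    have hq0 : (0 : ℝ) < q := by exact_mod_cast (hP q hq).pos
    by_cases hpq : p = q
    · subst hpq
      rw [if_pos rfl]
      have h3 : (Ioc N (N + H)).filter (fun m => p ∣ m ∧ p ∣ m) = (Ioc N (N + H)).filter (fun m => p ∣ m) := by
        refine Finset.filter_congr fun m _ => ?_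
        exact and_self_iff
      rw [h3]
      have h4 := cnt_le (hP p hp).one_lt.le N H
      have h5 : 0 ≤ (H : ℝ) * ((1 : ℝ) / p * (1 / p)) := by positivity
      linarith
    · rw [if_neg hpq]
      have hco : Nat.Coprime p q := (Nat.coprime_primes (hP p hp) (hP q hq)).2 hpq
      have h3 : (Ioc N (N + H)).filter (fun m => p ∣ m ∧ q ∣ m) = (Ioc N (N + H)).filter (fun m => p * q ∣ m) := by
        refine Finset.filter_congr fun m _ => ?_
        exact ⟨fun h => hco.mul_dvd_of_dvd_of_dvd h.1 h.2,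
          fun h => ⟨(Dvd.intro _ rfl).trans h, (Dvd.intro_left _ rfl).trans h⟩⟩
      rw [h3]
      have h4 := cnt_le (d := p * q) (Nat.mul_pos (hP p hp).pos (hP q hq).pos) N H
      have h5 : (H : ℝ) / ((p * q : ℕ) : ℝ) = H * ((1 : ℝ) / p * (1 / q)) := by
        push_cast
        field_simp
      rw [h5] at h4
      linarith
  calc ∑ p ∈ P, ∑ q ∈ P, ((((Ioc N (N + H)).filter (fun m => p ∣ m ∧ q ∣ m)).card : ℕ) : ℝ)
      ≤ ∑ p ∈ P, ∑ q ∈ P, (H * ((1 : ℝ) / p * (1 / q)) + (if p = q then (H : ℝ) / p else 0) + 1) :=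
        Finset.sum_le_sum fun p hp => Finset.sum_le_sum fun q hq => h2 p hp q hq
    _ = H * (∑ p ∈ P, (1 : ℝ) / p) ^ 2 + H * (∑ p ∈ P, (1 : ℝ) / p) + (P.card : ℝ) ^ 2 := by
        simp only [Finset.sum_add_distrib]
        congr 1
        · congr 1
          · rw [pow_two, Finset.sum_mul_sum, Finset.mul_sum]
            refine Finset.sum_congr rfl fun p _ => ?_
            rw [Finset.mul_sum]
          · rw [Finset.mul_sum]
            refine Finset.sum_congr rfl fun p hp => ?_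
            rw [Finset.sum_ite_eq, if_pos hp]
            ring
        · simp only [Finset.sum_const, nsmul_eq_mul, mul_one]
          ring

private theorem sqrt_factt (x : ℝ) (hx : 0 ≤ x) (η : ℝ) (hη : 0 ≤ η) (K : ℝ) :
    K * (K * x + η * K) ≤ (K * (√x + √η)) ^ 2 := by
  have h1 : √x ^ 2 = x := Real.sq_sqrt hx
  have h2 : √η ^ 2 = η := Real.sq_sqrt hη
  have h3 : 0 ≤ √x := Real.sqrt_nonneg _
  have h4 : 0 ≤ √η := Real.sqrt_nonneg _
  have h5 : (K * (√x + √η)) ^ 2 = K ^ 2 * (√x ^ 2 + √η ^ 2) + 2 * (K ^ 2 * (√x * √η)) := by ring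
  rw [h5, h1, h2]
  have h6 : 0 ≤ K ^ 2 * (√x * √η) := by positivity
  have h7 : K * (K * x + η * K) = K ^ 2 * (x + η) := by ring
  rw [h7]
  linarith

theorem tkt (P : Finset ℕ) (hP : ∀ p ∈ P, p.Prime) (η : ℝ) (hη : 0 ≤ η) (u K : ℕ) (hPK : 4 * (P.card : ℝ) ^ 2 ≤ η * K)
    (θ : ℝ) (hθ : 0 ≤ θ) (hθ1 : θ ≤ 1) (F : ℕ → ℂ) (hF : ∀ m, ‖F m‖ ≤ 1) :
    ‖∑ m ∈ Ioc u (u + K), F m‖ ≤
      K * (√(1 - 2 * θ * (∑ p ∈ P, (1 : ℝ) / p) + θ ^ 2 * ((∑ p ∈ P, (1 : ℝ) / p) + (∑ p ∈ P, (1 : ℝ) / p) ^ 2)) + √η) +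
        θ * ∑ p ∈ P, ‖∑ m ∈ (Ioc u (u + K)).filter (fun m => p ∣ m), F m‖ := by
  set M : ℝ := ∑ p ∈ P, (1 : ℝ) / p with hMdef
  have hM0 : 0 ≤ M := Finset.sum_nonneg fun p _ => by positivity
  have hK0 : (0 : ℝ) ≤ K := Nat.cast_nonneg K
  have hP0 : (0 : ℝ) ≤ P.card := Nat.cast_nonneg _
  have hx0 : 0 ≤ 1 - 2 * θ * M + θ ^ 2 * (M + M ^ 2) := by
    have h1 : 1 - 2 * θ * M + θ ^ 2 * (M + M ^ 2) = (1 - θ * M) ^ 2 + θ ^ 2 * M := by ring
    rw [h1]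
    positivity
  have hcard : ((Ioc u (u + K)).card : ℝ) = K := by
    rw [Nat.card_Ioc]
    congr 1
    omega
  -- the decomposition
  have hid : ∑ m ∈ Ioc u (u + K), F m =
      ∑ m ∈ Ioc u (u + K), F m * ((1 - θ * (((P.filter (fun p => p ∣ m)).card : ℕ) : ℝ) : ℝ) : ℂ) +
        (θ : ℂ) * ∑ p ∈ P, ∑ m ∈ (Ioc u (u + K)).filter (fun m => p ∣ m), F m := by
    have h1 : ∑ p ∈ P, ∑ m ∈ (Ioc u (u + K)).filter (fun m => p ∣ m), F m =
        ∑ m ∈ Ioc u (u + K), F m * (((P.filter (fun p => p ∣ m)).card : ℕ) : ℂ) := by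
      rw [Finset.sum_congr rfl fun p _ => Finset.sum_filter _ _, Finset.sum_comm]
      refine Finset.sum_congr rfl fun m _ => ?_
      rw [om_eqC, Finset.mul_sum]
      refine Finset.sum_congr rfl fun p _ => ?_
      by_cases h2 : p ∣ m <;> simp [h2]
    rw [h1, Finset.mul_sum, ← Finset.sum_add_distrib]
    refine Finset.sum_congr rfl fun m _ => ?_
    push_cast
    ring
  -- the variance
  have hvar : ∑ m ∈ Ioc u (u + K), (1 - θ * (((P.filter (fun p => p ∣ m)).card : ℕ) : ℝ)) ^ 2 ≤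
      K * (1 - 2 * θ * M + θ ^ 2 * (M + M ^ 2)) + η * K := by
    have h1 : ∑ m ∈ Ioc u (u + K), (1 - θ * (((P.filter (fun p => p ∣ m)).card : ℕ) : ℝ)) ^ 2 =
        K - 2 * θ * ∑ m ∈ Ioc u (u + K), (((P.filter (fun p => p ∣ m)).card : ℕ) : ℝ) +
          θ ^ 2 * ∑ m ∈ Ioc u (u + K), (((P.filter (fun p => p ∣ m)).card : ℕ) : ℝ) ^ 2 := by
      have h2 : (K : ℝ) = ∑ _m ∈ Ioc u (u + K), (1 : ℝ) := by
        rw [Finset.sum_const, nsmul_eq_mul, mul_one, hcard]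
      rw [h2, Finset.mul_sum, Finset.mul_sum, ← Finset.sum_sub_distrib, ← Finset.sum_add_distrib]
      refine Finset.sum_congr rfl fun m _ => ?_
      ring
    rw [h1]
    have h2 := first_mom hP u K
    have h3 := second_mom hP u K
    rw [← hMdef] at h2 h3
    have h4 : 2 * θ * (K * M - P.card) ≤
        2 * θ * ∑ m ∈ Ioc u (u + K), (((P.filter (fun p => p ∣ m)).card : ℕ) : ℝ) :=
      mul_le_mul_of_nonneg_left h2 (by positivity)
    have h5 : θ ^ 2 * ∑ m ∈ Ioc u (u + K), (((P.filter (fun p => p ∣ m)).card : ℕ) : ℝ) ^ 2 ≤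
        θ ^ 2 * (K * M ^ 2 + K * M + (P.card : ℝ) ^ 2) :=
      mul_le_mul_of_nonneg_left h3 (by positivity)
    have h6 : (P.card : ℝ) ≤ (P.card : ℝ) ^ 2 := by
      rcases Nat.eq_zero_or_pos P.card with h | h
      · rw [h]
        simp
      · have h7 : (1 : ℝ) ≤ P.card := by exact_mod_cast h
        nlinarith
    have h7 : θ * P.card ≤ (P.card : ℝ) ^ 2 := by
      calc θ * P.card ≤ 1 * P.card := mul_le_mul_of_nonneg_right hθ1 hP0
        _ ≤ (P.card : ℝ) ^ 2 := by rw [one_mul]; exact h6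
    have h8 : θ ^ 2 * (P.card : ℝ) ^ 2 ≤ (P.card : ℝ) ^ 2 := by
      have : θ ^ 2 ≤ 1 := pow_le_one₀ hθ hθ1
      calc θ ^ 2 * (P.card : ℝ) ^ 2 ≤ 1 * (P.card : ℝ) ^ 2 := mul_le_mul_of_nonneg_right this (by positivity)
        _ = _ := one_mul _
    have h11 : (0 : ℝ) ≤ (P.card : ℝ) ^ 2 := sq_nonneg _
    have h12 : 2 * θ * (K * M - P.card) = 2 * θ * M * K - 2 * (θ * P.card) := by ring
    have h13 : θ ^ 2 * (K * M ^ 2 + K * M + (P.card : ℝ) ^ 2) =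
        K * (θ ^ 2 * (M + M ^ 2)) + θ ^ 2 * (P.card : ℝ) ^ 2 := by ring
    have h14 : (K : ℝ) * (1 - 2 * θ * M + θ ^ 2 * (M + M ^ 2)) =
        K - 2 * θ * M * K + K * (θ ^ 2 * (M + M ^ 2)) := by ring
    rw [h12] at h4
    rw [h13] at h5
    rw [h14]
    linarith
  have hcs : ∑ m ∈ Ioc u (u + K), |1 - θ * (((P.filter (fun p => p ∣ m)).card : ℕ) : ℝ)| ≤
      K * (√(1 - 2 * θ * M + θ ^ 2 * (M + M ^ 2)) + √η) := by
    have h1 := sq_sum_le_card_mul_sum_sq (s := Ioc u (u + K))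
      (f := fun m => |1 - θ * (((P.filter (fun p => p ∣ m)).card : ℕ) : ℝ)|)
    rw [hcard] at h1
    have h2 : ∑ m ∈ Ioc u (u + K), |1 - θ * (((P.filter (fun p => p ∣ m)).card : ℕ) : ℝ)| ^ 2 ≤
        K * (1 - 2 * θ * M + θ ^ 2 * (M + M ^ 2)) + η * K := by
      rw [Finset.sum_congr rfl fun m _ => sq_abs _]
      exact hvar
    have h3 : (∑ m ∈ Ioc u (u + K), |1 - θ * (((P.filter (fun p => p ∣ m)).card : ℕ) : ℝ)|) ^ 2 ≤
        (K * (√(1 - 2 * θ * M + θ ^ 2 * (M + M ^ 2)) + √η)) ^ 2 :=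
      (h1.trans (mul_le_mul_of_nonneg_left h2 hK0)).trans (sqrt_factt _ hx0 η hη K)
    exact le_of_sq_le_sq h3 (by positivity)
  rw [hid]
  refine (norm_add_le _ _).trans (add_le_add ?_ ?_)
  · refine le_trans ?_ hcs
    refine (norm_sum_le _ _).trans (Finset.sum_le_sum fun m _ => ?_)
    rw [norm_mul, Complex.norm_real, Real.norm_eq_abs]
    calc ‖F m‖ * |1 - θ * (((P.filter (fun p => p ∣ m)).card : ℕ) : ℝ)|
        ≤ 1 * |1 - θ * (((P.filter (fun p => p ∣ m)).card : ℕ) : ℝ)| :=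
          mul_le_mul_of_nonneg_right (hF m) (abs_nonneg _)
      _ = _ := one_mul _
  · rw [norm_mul, Complex.norm_real, Real.norm_of_nonneg hθ]
    exact mul_le_mul_of_nonneg_left (norm_sum_le _ _) hθ

end Pool.Agent.Helper83.BD
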